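import Mathlib

/-!
# The abstract machine counting `42531`-avoiding permutations

Permutations are built by inserting a new smallest entry again and again.  For a permutation
`π` of `Fin n` the *site* `s ≤ n` is the gap before the entry with index `s`.

* `T` : the sites `≤ T` are the ones at which a new smallest entry may be inserted;
* `q s` : the least index `c ≥ s` of an entry that is larger than some entry before site `s`;
* `K s` : the least index `a` of an entry such that for some entry `b` before site `s` and some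
  entry `c` between site `s` and `a` the values satisfy `a < b < c`.
-/

open Finset

namespace EvenWilf

structure St where
  T : ℕ
  q : ℕ → ℕ
  K : ℕ → ℕ

def step (st : St) (j : ℕ) : St where
  T := min st.T (st.K j) + 1
  q s := if s ≤ j then (if st.q s < j then st.q s else st.q s + 1) else s
  K s := if s ≤ j then (if st.q s < j then min (st.K s) j else st.K s + 1) else st.K (s - 1) + 1

def G : ℕ → St → ℕ
  | 0, _ => 1
  | k + 1, st => ∑ j ∈ range (st.T + 1), G k (step st j)

def st0 : St := ⟨0, fun s => s, fun s => s⟩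

/-! ## Occurrences -/

variable {n : ℕ}

/-- `π` has an occurrence of `42531` -/
def Occ (π : Equiv.Perm (Fin n)) : Prop :=
  ∃ b x c a v : Fin n, b < x ∧ x < c ∧ c < a ∧ a < v ∧
    π v < π x ∧ π x < π a ∧ π a < π b ∧ π b < π c

/-- an occurrence of `3142` whose last index is less than `i` -/
def TT (π : Equiv.Perm (Fin n)) (i : ℕ) : Prop :=
  ∃ b x c a : Fin n, b < x ∧ x < c ∧ c < a ∧ a.val < i ∧ π x < π a ∧ π a < π b ∧ π b < π c

def QQ (π : Equiv.Perm (Fin n)) (s i : ℕ) : Prop :=
  ∃ b c : Fin n, b.val < s ∧ s ≤ c.val ∧ c.val < i ∧ π b < π c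

def KK (π : Equiv.Perm (Fin n)) (s i : ℕ) : Prop :=
  ∃ b c a : Fin n, b.val < s ∧ s ≤ c.val ∧ c < a ∧ a.val < i ∧ π a < π b ∧ π b < π c

structure Rep (π : Equiv.Perm (Fin n)) (st : St) : Prop where
  le : st.T ≤ n
  T_iff : ∀ i ≤ n, st.T < i ↔ TT π i
  q_iff : ∀ s ≤ n, ∀ i ≤ n, st.q s < i ↔ QQ π s i
  K_iff : ∀ s ≤ n, ∀ i ≤ n, st.K s < i ↔ KK π s i

/-! ## Insertion of a new smallest entry -/

/-- insert a new smallest entry at site `j` -/
def ins (j : Fin (n + 1)) (π : Equiv.Perm (Fin n)) : Equiv.Perm (Fin (n + 1)) :=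
  (finSuccEquiv' j).trans ((Equiv.optionCongr π).trans (finSuccEquiv' 0).symm)

@[simp] lemma ins_self (j : Fin (n + 1)) (π : Equiv.Perm (Fin n)) : ins j π j = 0 := by
  simp [ins]

@[simp] lemma ins_succAbove (j : Fin (n + 1)) (π : Equiv.Perm (Fin n)) (i : Fin n) :
    ins j π (j.succAbove i) = (π i).succ := by
  simp [ins]

lemma ins_injective : Function.Injective
    (fun p : Fin (n + 1) × Equiv.Perm (Fin n) => ins p.1 p.2) := by
  rintro ⟨j, π⟩ ⟨j', π'⟩ h
  simp only at h
  have hj : j = j' := by
    have h1 : ins j π j = 0 := ins_self j π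
    have h2 : ins j π j' = 0 := by rw [h]; exact ins_self j' π'
    exact (ins j π).injective (h1.trans h2.symm)
  subst hj
  have : π = π' := by
    ext i
    have := congrArg (fun e => e (j.succAbove i)) h
    simp only [ins_succAbove] at this
    exact congrArg Fin.val (Fin.succ_injective _ this)
  rw [this]

lemma ins_bijective : Function.Bijective
    (fun p : Fin (n + 1) × Equiv.Perm (Fin n) => ins p.1 p.2) := by
  rw [Fintype.bijective_iff_injective_and_card]
  refine ⟨ins_injective, ?_⟩
  simp [Fintype.card_perm, Nat.factorial_succ]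

lemma sum_perm_succ {M : Type*} [AddCommMonoid M] (f : Equiv.Perm (Fin (n + 1)) → M) :
    ∑ τ, f τ = ∑ π : Equiv.Perm (Fin n), ∑ j : Fin (n + 1), f (ins j π) := by
  rw [← (Equiv.ofBijective _ (ins_bijective (n := n))).sum_comp f, Fintype.sum_prod_type_right]
  rfl

/-- index of an old entry after the insertion -/
lemma val_succAbove (j : Fin (n + 1)) (i : Fin n) :
    (j.succAbove i).val = if i.val < j.val then i.val else i.val + 1 := by
  rw [Fin.succAbove]
  split_ifs with h1 h2 h2
  · rfl
  · exact absurd h1 h2
  · exact absurd h2 h1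
  · rfl

lemma succAbove_lt (j : Fin (n + 1)) {a b : Fin n} : j.succAbove a < j.succAbove b ↔ a < b :=
  (Fin.strictMono_succAbove j).lt_iff_lt

lemma occ_ins (j : Fin (n + 1)) (π : Equiv.Perm (Fin n)) :
    Occ (ins j π) ↔ Occ π ∨ TT π j.val := by
  constructor
  · rintro ⟨b, x, c, a, v, h1, h2, h3, h4, h5, h6, h7, h8⟩
    -- entries other than `v` are old
    have key : ∀ y : Fin (n + 1), (∃ z, ins j π z < ins j π y) → ∃ y', y = j.succAbove y' := by
      rintro y ⟨z, hz⟩
      rcases Fin.eq_self_or_eq_succAbove j y with rfl | h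
      · rw [ins_self] at hz; exact absurd hz (Fin.not_lt_zero _)
      · exact h
    obtain ⟨x', rfl⟩ := key x ⟨_, h5⟩
    obtain ⟨a', rfl⟩ := key a ⟨_, h6⟩
    obtain ⟨b', rfl⟩ := key b ⟨_, h7⟩
    obtain ⟨c', rfl⟩ := key c ⟨_, h8⟩
    rw [ins_succAbove, ins_succAbove, Fin.succ_lt_succ_iff] at h6 h7 h8
    rw [succAbove_lt] at h1 h2 h3
    rcases Fin.eq_self_or_eq_succAbove j v with rfl | ⟨v', rfl⟩
    · right
      refine ⟨b', x', c', a', h1, h2, h3, ?_, h6, h7, h8⟩
      have := Fin.lt_def.1 h4
      rw [val_succAbove] at this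
      split_ifs at this <;> omega
    · left
      rw [ins_succAbove, ins_succAbove, Fin.succ_lt_succ_iff] at h5
      rw [succAbove_lt] at h4
      exact ⟨b', x', c', a', v', h1, h2, h3, h4, h5, h6, h7, h8⟩
  · rintro (⟨b, x, c, a, v, h1, h2, h3, h4, h5, h6, h7, h8⟩ | ⟨b, x, c, a, h1, h2, h3, h4, h6, h7, h8⟩)
    · refine ⟨j.succAbove b, j.succAbove x, j.succAbove c, j.succAbove a, j.succAbove v, ?_⟩
      simp only [succAbove_lt, ins_succAbove, Fin.succ_lt_succ_iff]
      exact ⟨h1, h2, h3, h4, h5, h6, h7, h8⟩
    · refine ⟨j.succAbove b, j.succAbove x, j.succAbove c, j.succAbove a, j, ?_⟩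
      simp only [succAbove_lt, ins_succAbove, Fin.succ_lt_succ_iff, ins_self, Fin.succ_pos,
        true_and]
      refine ⟨h1, h2, h3, ?_, h6, h7, h8⟩
      rw [Fin.lt_def, val_succAbove]
      split_ifs <;> omega

lemma rep_ins {π : Equiv.Perm (Fin n)} {st : St} (h : Rep π st) (j : Fin (n + 1))
    (hj : j.val ≤ st.T) : Rep (ins j π) (step st j.val) := by
  have hjn : j.val ≤ n := Nat.lt_succ_iff.1 j.isLt
  -- no occurrence ends before `j`
  have hTj : ¬ TT π j.val := by rw [← h.T_iff _ hjn]; omega
  have old : ∀ y : Fin (n + 1), (∃ z, ins j π z < ins j π y) → ∃ y', y = j.succAbove y' := by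
    rintro y ⟨z, hz⟩
    rcases Fin.eq_self_or_eq_succAbove j y with rfl | h
    · rw [ins_self] at hz; exact absurd hz (Fin.not_lt_zero _)
    · exact h
  have mono : ∀ s i i', i ≤ i' → QQ π s i → QQ π s i' := by
    rintro s i i' hi ⟨b, c, h1, h2, h3, h4⟩; exact ⟨b, c, h1, h2, by omega, h4⟩
  have KQ : ∀ s ≤ n, ∀ i ≤ n, st.K s < i → st.q s < i := by
    intro s hs i hi hk
    rw [h.q_iff s hs i hi]
    obtain ⟨b, c, a, g1, g2, g3, g4, g5, g6⟩ := (h.K_iff s hs i hi).1 hk
    exact ⟨b, c, g1, g2, by rw [Fin.lt_def] at g3; omega, g6⟩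
  refine ⟨?_, ?_, ?_, ?_⟩
  · -- T ≤ n + 1
    have := h.le
    simp only [step]
    omega
  · -- T_iff
    intro i hi
    simp only [step]
    have e1 : min st.T (st.K j.val) + 1 < i ↔ (1 ≤ i ∧ (TT π (i - 1) ∨ KK π j.val (i - 1))) := by
      rcases Nat.eq_zero_or_pos i with rfl | hi0
      · simp
      · rw [← h.T_iff (i - 1) (by omega), ← h.K_iff j.val hjn (i - 1) (by omega)]
        omega
    rw [e1]
    constructor
    · rintro ⟨hi1, (⟨b, x, c, a, h1, h2, h3, h4, h6, h7, h8⟩ | ⟨b, c, a, h1, h2, h3, h4, h6, h7⟩)⟩
      · refine ⟨j.succAbove b, j.succAbove x, j.succAbove c, j.succAbove a, ?_⟩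
        simp only [succAbove_lt, ins_succAbove, Fin.succ_lt_succ_iff]
        refine ⟨h1, h2, h3, ?_, h6, h7, h8⟩
        rw [val_succAbove]
        split_ifs
        all_goals omega
      · refine ⟨j.succAbove b, j, j.succAbove c, j.succAbove a, ?_⟩
        simp only [succAbove_lt, ins_succAbove, Fin.succ_lt_succ_iff, ins_self, Fin.succ_pos,
          true_and]
        refine ⟨?_, ?_, h3, ?_, h6, h7⟩
        · rw [Fin.lt_def, val_succAbove]; split_ifs <;> omega
        · rw [Fin.lt_def, val_succAbove]; split_ifs <;> omega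
        · rw [val_succAbove]; split_ifs <;> omega
    · rintro ⟨b, x, c, a, h1, h2, h3, h4, h6, h7, h8⟩
      obtain ⟨a', rfl⟩ := old a ⟨_, h6⟩
      obtain ⟨b', rfl⟩ := old b ⟨_, h7⟩
      obtain ⟨c', rfl⟩ := old c ⟨_, h8⟩
      simp only [ins_succAbove, Fin.succ_lt_succ_iff] at h7 h8
      rw [succAbove_lt] at h3
      refine ⟨by omega, ?_⟩
      rcases Fin.eq_self_or_eq_succAbove j x with rfl | ⟨x', rfl⟩
      · right
        rw [Fin.lt_def, val_succAbove] at h1 h2
        rw [val_succAbove] at h4
        rw [Fin.lt_def] at h3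
        refine ⟨b', c', a', ?_, ?_, h3, ?_, h7, h8⟩
        · split_ifs at h1 <;> omega
        · split_ifs at h2 <;> omega
        · split_ifs at h4 h2 <;> omega
      · left
        rw [succAbove_lt] at h1 h2
        rw [ins_succAbove, ins_succAbove, Fin.succ_lt_succ_iff] at h6
        refine ⟨b', x', c', a', h1, h2, h3, ?_, h6, h7, h8⟩
        rw [val_succAbove] at h4
        by_contra hcon
        apply hTj
        refine ⟨b', x', c', a', h1, h2, h3, ?_, h6, h7, h8⟩
        split_ifs at h4 <;> omega
  · -- q_iff
    intro s hs i hi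
    simp only [step]
    by_cases hsj : s ≤ j.val
    · rw [if_pos hsj]
      have e1 : QQ (ins j π) s i ↔ (i ≤ j.val ∧ QQ π s i) ∨ (j.val < i ∧ QQ π s (i - 1)) := by
        constructor
        · rintro ⟨b, c, h1, h2, h3, h4⟩
          obtain ⟨c', rfl⟩ := old c ⟨_, h4⟩
          obtain ⟨b', rfl⟩ : ∃ b', b = j.succAbove b' := by
            rcases Fin.eq_self_or_eq_succAbove j b with rfl | h
            · omega
            · exact h
          simp only [ins_succAbove, Fin.succ_lt_succ_iff] at h4
          rw [val_succAbove] at h1 h2 h3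
          by_cases hij : i ≤ j.val
          · left
            refine ⟨hij, b', c', ?_, ?_, ?_, h4⟩
            · split_ifs at h1 <;> omega
            · split_ifs at h2 h3 <;> omega
            · split_ifs at h3 <;> omega
          · right
            refine ⟨by omega, b', c', ?_, ?_, ?_, h4⟩
            · split_ifs at h1 <;> omega
            · split_ifs at h2 <;> omega
            · split_ifs at h3 <;> omega
        · rintro (⟨hij, b, c, h1, h2, h3, h4⟩ | ⟨hij, b, c, h1, h2, h3, h4⟩)
          · refine ⟨j.succAbove b, j.succAbove c, ?_, ?_, ?_, ?_⟩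
            · rw [val_succAbove]; split_ifs <;> omega
            · rw [val_succAbove]; split_ifs <;> omega
            · rw [val_succAbove]; split_ifs <;> omega
            · simpa [ins_succAbove] using h4
          · refine ⟨j.succAbove b, j.succAbove c, ?_, ?_, ?_, ?_⟩
            · rw [val_succAbove]; split_ifs <;> omega
            · rw [val_succAbove]; split_ifs <;> omega
            · rw [val_succAbove]; split_ifs <;> omega
            · simpa [ins_succAbove] using h4
      rw [e1]
      by_cases hij : i ≤ j.val
      · have := h.q_iff s (by omega) i (by omega)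
        rw [← this]
        split_ifs <;> omega
      · have := h.q_iff s (by omega) (i - 1) (by omega)
        rw [← this]
        split_ifs <;> omega
    · rw [if_neg hsj]
      constructor
      · intro hsi
        have hs' : s < n + 1 := by omega
        have hne : (⟨s, hs'⟩ : Fin (n + 1)) ≠ j := by
          intro he; apply hsj; rw [← he]
        obtain ⟨c', hc'⟩ := Fin.exists_succAbove_eq hne
        refine ⟨j, ⟨s, hs'⟩, by omega, le_refl _, hsi, ?_⟩
        rw [← hc', ins_self, ins_succAbove]
        exact Fin.succ_pos _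
      · rintro ⟨b, c, h1, h2, h3, h4⟩
        omega
  · -- K_iff
    intro s hs i hi
    simp only [step]
    by_cases hsj : s ≤ j.val
    · rw [if_pos hsj]
      have e1 : KK (ins j π) s i ↔ (i ≤ j.val ∧ KK π s i) ∨
          (j.val < i ∧ (KK π s (i - 1) ∨ QQ π s j.val)) := by
        constructor
        · rintro ⟨b, c, a, h1, h2, h3, h4, h5, h6⟩
          obtain ⟨c', rfl⟩ := old c ⟨_, h6⟩
          obtain ⟨b', rfl⟩ := old b ⟨_, h5⟩
          simp only [ins_succAbove, Fin.succ_lt_succ_iff] at h6
          rw [val_succAbove] at h1 h2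
          rcases Fin.eq_self_or_eq_succAbove j a with rfl | ⟨a', rfl⟩
          · rw [Fin.lt_def, val_succAbove] at h3
            right
            refine ⟨h4, Or.inr ⟨b', c', ?_, ?_, ?_, h6⟩⟩
            · split_ifs at h1 <;> omega
            · split_ifs at h2 h3 <;> omega
            · split_ifs at h3 <;> omega
          · rw [succAbove_lt] at h3
            rw [ins_succAbove, ins_succAbove, Fin.succ_lt_succ_iff] at h5
            rw [val_succAbove] at h4
            have h3' := Fin.lt_def.1 h3
            by_cases hij : i ≤ j.val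
            · left
              refine ⟨hij, b', c', a', ?_, ?_, h3, ?_, h5, h6⟩
              · split_ifs at h1 <;> omega
              · split_ifs at h2 h4 <;> omega
              · split_ifs at h4 <;> omega
            · right
              refine ⟨by omega, Or.inl ⟨b', c', a', ?_, ?_, h3, ?_, h5, h6⟩⟩
              · split_ifs at h1 <;> omega
              · split_ifs at h2 <;> omega
              · split_ifs at h4 <;> omega
        · rintro (⟨hij, b, c, a, h1, h2, h3, h4, h5, h6⟩ |
            ⟨hij, (⟨b, c, a, h1, h2, h3, h4, h5, h6⟩ | ⟨b, c, h1, h2, h3, h4⟩)⟩)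
          · refine ⟨j.succAbove b, j.succAbove c, j.succAbove a, ?_, ?_, ?_, ?_, ?_, ?_⟩
            · rw [val_succAbove]; split_ifs <;> omega
            · rw [val_succAbove]; split_ifs <;> omega
            · rwa [succAbove_lt]
            · rw [val_succAbove]; split_ifs <;> omega
            · simpa [ins_succAbove] using h5
            · simpa [ins_succAbove] using h6
          · refine ⟨j.succAbove b, j.succAbove c, j.succAbove a, ?_, ?_, ?_, ?_, ?_, ?_⟩
            · rw [val_succAbove]; split_ifs <;> omega
            · rw [val_succAbove]; split_ifs <;> omega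
            · rwa [succAbove_lt]
            · rw [val_succAbove]; split_ifs <;> omega
            · simpa [ins_succAbove] using h5
            · simpa [ins_succAbove] using h6
          · refine ⟨j.succAbove b, j.succAbove c, j, ?_, ?_, ?_, hij, ?_, ?_⟩
            · rw [val_succAbove]; split_ifs <;> omega
            · rw [val_succAbove]; split_ifs <;> omega
            · rw [Fin.lt_def, val_succAbove]; split_ifs <;> omega
            · rw [ins_self, ins_succAbove]; exact Fin.succ_pos _
            · simpa [ins_succAbove] using h4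
      rw [e1, ← h.q_iff s (by omega) j.val hjn]
      by_cases hij : i ≤ j.val
      · have hKQ := KQ s (by omega) i (by omega)
        rw [← h.K_iff s (by omega) i (by omega)]
        split_ifs <;> omega
      · rw [← h.K_iff s (by omega) (i - 1) (by omega)]
        split_ifs <;> omega
    · rw [if_neg hsj]
      have e1 : KK (ins j π) s i ↔ (1 ≤ i ∧ KK π (s - 1) (i - 1)) := by
        constructor
        · rintro ⟨b, c, a, h1, h2, h3, h4, h5, h6⟩
          obtain ⟨c', rfl⟩ := old c ⟨_, h6⟩
          obtain ⟨b', rfl⟩ := old b ⟨_, h5⟩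
          obtain ⟨a', rfl⟩ : ∃ a', a = j.succAbove a' := by
            rcases Fin.eq_self_or_eq_succAbove j a with rfl | h
            · rw [Fin.lt_def] at h3; omega
            · exact h
          simp only [ins_succAbove, Fin.succ_lt_succ_iff] at h5 h6
          rw [succAbove_lt] at h3
          have h3' := Fin.lt_def.1 h3
          rw [val_succAbove] at h1 h2 h4
          refine ⟨by omega, b', c', a', ?_, ?_, h3, ?_, h5, h6⟩
          · split_ifs at h1 <;> omega
          · split_ifs at h2 <;> omega
          · split_ifs at h4 h2 <;> omega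
        · rintro ⟨hi1, b, c, a, h1, h2, h3, h4, h5, h6⟩
          refine ⟨j.succAbove b, j.succAbove c, j.succAbove a, ?_, ?_, ?_, ?_, ?_, ?_⟩
          · rw [val_succAbove]; split_ifs <;> omega
          · rw [val_succAbove]; split_ifs <;> omega
          · rwa [succAbove_lt]
          · rw [val_succAbove]; split_ifs <;> omega
          · simpa [ins_succAbove] using h5
          · simpa [ins_succAbove] using h6
      rw [e1]
      rcases Nat.eq_zero_or_pos i with rfl | hi0
      · simp
      · rw [← h.K_iff (s - 1) (by omega) (i - 1) (by omega)]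
        omega

end EvenWilf
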