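import Pool.Agent.H26.EvenWilf.Machine
import Pool.Agent.H26.EvenWilf.Abs

/-!
# Correctness of the machine
-/

open Finset

namespace EvenWilf

lemma nmin_eq (a b : ℕ) : nmin a b = min a b := by
  unfold nmin
  rcases Nat.lt_or_ge b a with h | h
  · have : Nat.ble a b = false := by
      rw [← Bool.not_eq_true, Nat.ble_eq]; omega
    rw [this]
    simp only
    omega
  · have : Nat.ble a b = true := by rw [Nat.ble_eq]; omega
    rw [this]
    simp only
    omega

lemma force_eq {α : Type} (n : ℕ) (f : ℕ → α) : force n f = f n := by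
  cases n <;> rfl

/-! ## Unfolding equations -/

lemma hiD_nil (T' s : ℕ) : hiD T' [] s = [] := rfl

lemma hiD_cons (T' d s : ℕ) (l : List ℕ) : hiD T' (d :: l) s =
    if T' ≤ s then [] else (16 * (s + 1) + min (d % 16 + 1) T') :: hiD T' l (s + 1) := by
  have : hiD T' (d :: l) s = Bool.rec
        (force (Nat.add (Nat.mul 16 (Nat.succ s)) (nmin (Nat.succ (Nat.mod d 16)) T')) fun e =>
          List.cons e (hiD T' l (Nat.succ s)))
        []
        (Nat.ble T' s) := rfl
  rw [this]
  split_ifs with h
  · have hb : Nat.ble T' s = true := by rw [Nat.ble_eq]; exact h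
    rw [hb]
  · have hb : Nat.ble T' s = false := by rw [← Bool.not_eq_true, Nat.ble_eq]; exact h
    rw [hb]
    simp only
    rw [force_eq, nmin_eq]
    rfl

lemma loDig_eq (j T' d : ℕ) : loDig j T' d =
    if d / 16 < j then 16 * (d / 16) + min (d % 16) j
    else 16 * min (d / 16 + 1) T' + min (d % 16 + 1) T' := by
  have : loDig j T' d = Bool.rec
    (Nat.add (Nat.mul 16 (nmin (Nat.succ (Nat.div d 16)) T')) (nmin (Nat.succ (Nat.mod d 16)) T'))
    (Nat.add (Nat.mul 16 (Nat.div d 16)) (nmin (Nat.mod d 16) j))
    (Nat.ble (Nat.succ (Nat.div d 16)) j) := rfl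
  rw [this]
  split_ifs with h
  · have hb : Nat.ble (Nat.succ (Nat.div d 16)) j = true := by rw [Nat.ble_eq]; exact h
    rw [hb]
    simp only
    rw [nmin_eq]
    rfl
  · have hb : Nat.ble (Nat.succ (Nat.div d 16)) j = false := by
      rw [← Bool.not_eq_true, Nat.ble_eq]; exact h
    rw [hb]
    simp only
    rw [nmin_eq, nmin_eq]
    rfl

lemma loD_nil (j T' s : ℕ) : loD j T' [] s = [] := rfl

lemma loD_cons (j T' d s : ℕ) (l : List ℕ) : loD j T' (d :: l) s =
    loDig j T' d :: (if s < j then loD j T' l (s + 1) else hiD T' (d :: l) s) := by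
  have : loD j T' (d :: l) s = force (loDig j T' d) fun e =>
        List.cons e
          (Bool.rec (hiD T' (List.cons d l) s) (loD j T' l (Nat.succ s))
            (Nat.ble (Nat.succ s) j)) := rfl
  rw [this, force_eq]
  congr 1
  split_ifs with h
  · have hb : Nat.ble (Nat.succ s) j = true := by rw [Nat.ble_eq]; exact h
    rw [hb]
  · have hb : Nat.ble (Nat.succ s) j = false := by rw [← Bool.not_eq_true, Nat.ble_eq]; exact h
    rw [hb]

lemma foldS_nil {α : Type} (F : List ℕ → α → α) (full : List ℕ) (j : ℕ) (acc : α) :
    foldS F full [] j acc = acc := rfl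

lemma foldS_cons {α : Type} (F : List ℕ → α → α) (full : List ℕ) (d : ℕ) (l : List ℕ) (j : ℕ)
    (acc : α) : foldS F full (d :: l) j acc =
      foldS F full l (j + 1) (F (loD j (d % 16 + 1) full 0) acc) := by
  have : foldS F full (d :: l) j acc = foldS F full l (Nat.succ j)
    (force (Nat.succ (Nat.mod d 16)) fun T' => F (loD j T' full 0) acc) := rfl
  rw [this, force_eq]
  rfl

lemma enc_nil : enc [] = 1 := rfl

lemma enc_cons (d : ℕ) (l : List ℕ) : enc (d :: l) = enc l * 256 + d := rfl

lemma enc_pos (l : List ℕ) : 1 ≤ enc l := by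
  induction l with
  | nil => rw [enc_nil]
  | cons d l ih => rw [enc_cons]; omega

lemma dec_succ (n c : ℕ) : dec (n + 1) c = if c ≤ 1 then [] else c % 256 :: dec n (c / 256) := by
  have : dec (n + 1) c = Bool.rec (force (Nat.div c 256) fun c' =>
      List.cons (Nat.mod c 256) (dec n c')) [] (Nat.ble c 1) := rfl
  rw [this]
  split_ifs with h
  · have hb : Nat.ble c 1 = true := by rw [Nat.ble_eq]; exact h
    rw [hb]
  · have hb : Nat.ble c 1 = false := by rw [← Bool.not_eq_true, Nat.ble_eq]; exact h
    rw [hb]
    simp only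
    rw [force_eq]
    rfl

lemma dec_enc (l : List ℕ) : ∀ n, l.length ≤ n → (∀ d ∈ l, d < 256) → dec n (enc l) = l := by
  induction l with
  | nil =>
    intro n _ _
    cases n with
    | zero => rfl
    | succ n => rw [dec_succ, enc_nil, if_pos (le_refl _)]
  | cons d l ih =>
    intro n hn hd
    cases n with
    | zero => simp at hn
    | succ n =>
      have h1 := enc_pos l
      have h2 : d < 256 := hd d (by simp)
      rw [dec_succ, enc_cons, if_neg (by omega)]
      have e1 : (enc l * 256 + d) % 256 = d := by omega
      have e2 : (enc l * 256 + d) / 256 = enc l := by omega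
      rw [e1, e2, ih n (by simpa using hn) (fun x hx => hd x (by simp [hx]))]

/-! ## Digits of a state -/

/-- digit of the state `st` at site `s` -/
def dg (st : St) (s : ℕ) : ℕ := 16 * min (st.q s) st.T + min (st.K s) st.T

def seg (st : St) (s n : ℕ) : List ℕ := (List.range' s n).map (dg st)

def digs (st : St) : List ℕ := seg st 0 (st.T + 1)

structure Valid (st : St) : Prop where
  sq : ∀ s, s ≤ st.q s
  qK : ∀ s, st.q s ≤ st.K s

lemma valid0 : Valid st0 := ⟨fun _ => le_refl _, fun _ => le_refl _⟩

lemma Valid.step {st : St} (h : Valid st) (j : ℕ) : Valid (step st j) := by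
  constructor
  · intro s
    have h1 := h.sq s
    have h2 := h.qK s
    simp only [EvenWilf.step]
    split_ifs <;> omega
  · intro s
    have h1 := h.sq s
    have h2 := h.qK s
    have h3 := h.sq (s - 1)
    have h4 := h.qK (s - 1)
    simp only [EvenWilf.step]
    split_ifs <;> omega

lemma seg_succ (st : St) (s n : ℕ) : seg st s (n + 1) = dg st s :: seg st (s + 1) n := by
  simp [seg, List.range'_succ]

lemma dg_mod {st : St} (hT : st.T < 16) (s : ℕ) : dg st s % 16 = min (st.K s) st.T := by
  unfold dg; omega

lemma dg_div {st : St} (hT : st.T < 16) (s : ℕ) : dg st s / 16 = min (st.q s) st.T := by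
  unfold dg; omega

lemma hiD_seg {st : St} (hT : st.T < 16) {j : ℕ} :
    ∀ n s, s + n = st.T + 1 → j ≤ s →
      hiD (step st j).T (seg st s n) s = seg (step st j) (s + 1) ((step st j).T - s) := by
  have hT' : (step st j).T = min st.T (st.K j) + 1 := rfl
  intro n
  induction n with
  | zero =>
    intro s hs hj
    have : (step st j).T - s = 0 := by rw [hT']; omega
    rw [this]
    rfl
  | succ n ih =>
    intro s hs hj
    rw [seg_succ, hiD_cons]
    split_ifs with h
    · have : (step st j).T - s = 0 := by omega
      rw [this]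
      rfl
    · have : (step st j).T - s = ((step st j).T - (s + 1)) + 1 := by omega
      rw [this, seg_succ, ih (s + 1) (by omega) (by omega)]
      congr 1
      rw [dg_mod hT]
      have e : dg (step st j) (s + 1) = 16 * min (s + 1) (step st j).T +
          min (st.K s + 1) (step st j).T := by
        have hh : ¬ (s + 1 ≤ j) := by omega
        simp only [dg, step, if_neg hh, Nat.add_sub_cancel]
      rw [e]
      omega

lemma loDig_dg {st : St} (hv : Valid st) (hT : st.T < 16) {j s : ℕ} (hj : j ≤ st.T) (hs : s ≤ j) :
    loDig j (step st j).T (dg st s) = dg (step st j) s := by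
  have hT' : (step st j).T = min st.T (st.K j) + 1 := rfl
  have h1 := hv.sq j
  have h2 := hv.qK j
  have h3 := hv.sq s
  have h4 := hv.qK s
  rw [loDig_eq, dg_mod hT, dg_div hT]
  have e : dg (step st j) s = 16 * min (if st.q s < j then st.q s else st.q s + 1) (step st j).T +
      min (if st.q s < j then min (st.K s) j else st.K s + 1) (step st j).T := by
    simp only [dg, step, if_pos hs]
  rw [e]
  split_ifs <;> omega

lemma loD_seg {st : St} (hv : Valid st) (hT : st.T < 16) {j : ℕ} (hj : j ≤ st.T) :
    ∀ n s, s + n = st.T + 1 → s ≤ j →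
      loD j (step st j).T (seg st s n) s = seg (step st j) s ((step st j).T + 1 - s) := by
  have hT' : (step st j).T = min st.T (st.K j) + 1 := rfl
  have h1 := hv.sq j
  have h2 := hv.qK j
  intro n
  induction n with
  | zero => intro s hs hj'; omega
  | succ n ih =>
    intro s hs hsj
    have e : (step st j).T + 1 - s = ((step st j).T - s) + 1 := by omega
    rw [e, seg_succ, loD_cons, loDig_dg hv hT hj hsj, ← seg_succ]
    congr 1
    split_ifs with h
    · rw [ih (s + 1) (by omega) (by omega)]
      congr 1
      omega
    · exact hiD_seg hT (n + 1) s hs (by omega)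

lemma loD_digs {st : St} (hv : Valid st) (hT : st.T < 16) {j : ℕ} (hj : j ≤ st.T) :
    loD j (dg st j % 16 + 1) (digs st) 0 = digs (step st j) := by
  have : dg st j % 16 + 1 = (step st j).T := by
    rw [dg_mod hT]
    simp only [step]
    omega
  rw [this]
  exact loD_seg hv hT hj (st.T + 1) 0 (by omega) (Nat.zero_le _)

lemma foldS_seg {α : Type} (F : List ℕ → α → α) {st : St} (hv : Valid st) (hT : st.T < 16) :
    ∀ n j acc, j + n = st.T + 1 → foldS F (digs st) (seg st j n) j acc =
      (List.range' j n).foldl (fun acc j => F (digs (step st j)) acc) acc := by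
  intro n
  induction n with
  | zero => intro j acc _; rfl
  | succ n ih =>
    intro j acc hj
    rw [seg_succ, foldS_cons, ih (j + 1) _ (by omega), loD_digs hv hT (by omega),
      List.range'_succ, List.foldl_cons]

lemma foldS_digs {α : Type} (F : List ℕ → α → α) {st : St} (hv : Valid st) (hT : st.T < 16)
    (acc : α) : foldS F (digs st) (digs st) 0 acc =
      (List.range (st.T + 1)).foldl (fun acc j => F (digs (step st j)) acc) acc := by
  rw [List.range_eq_range']
  exact foldS_seg F hv hT (st.T + 1) 0 acc (by omega)

/-- code of a state -/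
noncomputable def code (st : St) : ℕ := enc (digs st)

lemma dec_code {st : St} (hT : st.T < 15) : dec 20 (code st) = digs st := by
  apply dec_enc
  · simp [digs, seg]; omega
  · intro d hd
    simp only [digs, seg, List.mem_map] at hd
    obtain ⟨s, _, rfl⟩ := hd
    unfold dg
    omega

/-! ## Counting modulo two through codes -/

/-- number of ways to add `k` entries to the state with code `c`, modulo two -/
noncomputable def Gc : ℕ → ℕ → ZMod 2
  | 0, _ => 1
  | k + 1, c => foldS (fun l acc => Gc k (enc l) + acc) (dec 20 c) (dec 20 c) 0 0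

lemma foldl_add_sum {f : ℕ → ZMod 2} (l : List ℕ) (acc : ZMod 2) :
    l.foldl (fun acc j => f j + acc) acc = (l.map f).sum + acc := by
  induction l generalizing acc with
  | nil => simp
  | cons a l ih => rw [List.foldl_cons, ih, List.map_cons, List.sum_cons]; ring

lemma sum_map_range {M : Type*} [AddCommMonoid M] (f : ℕ → M) (n : ℕ) :
    ((List.range n).map f).sum = ∑ i ∈ range n, f i := by
  induction n with
  | zero => simp
  | succ n ih => rw [List.range_succ, List.map_append, List.sum_append, ih, sum_range_succ]; simp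

lemma Gc_code (k : ℕ) : ∀ st, Valid st → st.T + k < 16 → Gc k (code st) = (G k st : ZMod 2) := by
  induction k with
  | zero => intro st _ _; simp [Gc, G]
  | succ k ih =>
    intro st hv hT
    rw [Gc, dec_code (by omega), foldS_digs _ hv (by omega),
      foldl_add_sum (f := fun j => Gc k (enc (digs (step st j)))), add_zero, G, sum_map_range]
    push_cast
    refine sum_congr rfl fun j hj => ?_
    rw [mem_range] at hj
    have hT' : (step st j).T = min st.T (st.K j) + 1 := rfl
    exact ih (step st j) (hv.step j) (by omega)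

/-! ## Lists of codes -/

/-- parity of the number of ways to add `k` entries to the states of a list -/
noncomputable def P (k : ℕ) (L : List ℕ) : ZMod 2 := (L.map (Gc k)).sum

noncomputable def PP (k : ℕ) (L : List (List ℕ)) : ZMod 2 := (L.map (P k)).sum

lemma P_nil (k : ℕ) : P k [] = 0 := rfl

lemma P_cons (k c : ℕ) (L : List ℕ) : P k (c :: L) = Gc k c + P k L := by
  simp [P]

lemma P_append (k : ℕ) (L L' : List ℕ) : P k (L ++ L') = P k L + P k L' := by
  simp [P]

lemma PP_nil (k : ℕ) : PP k [] = 0 := rfl

lemma PP_cons (k : ℕ) (c : List ℕ) (L : List (List ℕ)) : PP k (c :: L) = P k c + PP k L := by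
  simp [PP]

lemma mergeC_zero (a b : List ℕ) : mergeC 0 a b = a ++ b := rfl

lemma mergeC_nil (n : ℕ) (b : List ℕ) : mergeC (n + 1) [] b = b := rfl

lemma mergeC_cons_nil (n x : ℕ) (a : List ℕ) : mergeC (n + 1) (x :: a) [] = x :: a := rfl

lemma mergeC_cons_cons (n x y : ℕ) (a b : List ℕ) : mergeC (n + 1) (x :: a) (y :: b) =
    if y < x then y :: mergeC n (x :: a) b else
      if x = y then mergeC n a b else x :: mergeC n a (y :: b) := by
  have : mergeC (n + 1) (x :: a) (y :: b) = Bool.rec
         (Bool.rec (List.cons x (mergeC n a (y :: b))) (mergeC n a b) (Nat.beq x y))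
         (List.cons y (mergeC n (x :: a) b))
         (Nat.ble (Nat.succ y) x) := rfl
  rw [this]
  split_ifs with h h2
  · have hb : Nat.ble (Nat.succ y) x = true := by rw [Nat.ble_eq]; exact h
    rw [hb]
  · have hb : Nat.ble (Nat.succ y) x = false := by rw [← Bool.not_eq_true, Nat.ble_eq]; exact h
    have hb2 : Nat.beq x y = true := by rw [Nat.beq_eq]; exact h2
    rw [hb, hb2]
  · have hb : Nat.ble (Nat.succ y) x = false := by rw [← Bool.not_eq_true, Nat.ble_eq]; exact h
    have hb2 : Nat.beq x y = false := by rw [← Bool.not_eq_true, Nat.beq_eq]; exact h2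
    rw [hb, hb2]

lemma P_mergeC (k n : ℕ) : ∀ a b, P k (mergeC n a b) = P k a + P k b := by
  induction n with
  | zero => intro a b; rw [mergeC_zero, P_append]
  | succ n ih =>
    intro a b
    cases a with
    | nil => rw [mergeC_nil, P_nil, zero_add]
    | cons x a =>
      cases b with
      | nil => rw [mergeC_cons_nil, P_nil, add_zero]
      | cons y b =>
        rw [mergeC_cons_cons]
        split_ifs with h h2
        · rw [P_cons, ih, P_cons, P_cons]; ring
        · subst h2
          rw [ih, P_cons, P_cons]
          have : Gc k x + Gc k x = 0 := CharTwo.add_self_eq_zero _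
          linear_combination -this
        · rw [P_cons, ih, P_cons, P_cons]; ring

lemma mem_mergeC (n : ℕ) : ∀ a b c, c ∈ mergeC n a b → c ∈ a ∨ c ∈ b := by
  induction n with
  | zero => intro a b c h; rw [mergeC_zero] at h; simpa using h
  | succ n ih =>
    intro a b c
    cases a with
    | nil => rw [mergeC_nil]; intro h; exact Or.inr h
    | cons x a =>
      cases b with
      | nil => rw [mergeC_cons_nil]; intro h; exact Or.inl h
      | cons y b =>
        rw [mergeC_cons_cons]
        intro hc
        split_ifs at hc with h h2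
        · rcases List.mem_cons.1 hc with rfl | hc
          · right; simp
          · rcases ih _ _ _ hc with h' | h'
            · left; exact h'
            · right; simp [h']
        · rcases ih _ _ _ hc with h' | h'
          · left; simp [h']
          · right; simp [h']
        · rcases List.mem_cons.1 hc with rfl | hc
          · left; simp
          · rcases ih _ _ _ hc with h' | h'
            · left; simp [h']
            · right; exact h'

lemma pairup_zero (l : List (List ℕ)) : pairup 0 l = l := rfl
lemma pairup_nil (n : ℕ) : pairup (n + 1) [] = [] := rfl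
lemma pairup_one (n : ℕ) (a : List ℕ) : pairup (n + 1) [a] = [a] := rfl
lemma pairup_two (n : ℕ) (a b : List ℕ) (l : List (List ℕ)) :
    pairup (n + 1) (a :: b :: l) = mergeC 100000 a b :: pairup n l := rfl

lemma PP_pairup (k n : ℕ) : ∀ l, PP k (pairup n l) = PP k l := by
  induction n with
  | zero => intro l; rfl
  | succ n ih =>
    intro l
    match l with
    | [] => rfl
    | [a] => rfl
    | a :: b :: l => rw [pairup_two, PP_cons, PP_cons, PP_cons, P_mergeC, ih, add_assoc]

lemma mem_pairup (n : ℕ) : ∀ l, ∀ L ∈ pairup n l, ∀ c ∈ L, ∃ L' ∈ l, c ∈ L' := by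
  induction n with
  | zero => intro l L hL c hc; exact ⟨L, hL, hc⟩
  | succ n ih =>
    intro l L hL c hc
    match l with
    | [] => rw [pairup_nil] at hL; exact ⟨L, hL, hc⟩
    | [a] => rw [pairup_one] at hL; exact ⟨L, hL, hc⟩
    | a :: b :: l =>
      rw [pairup_two] at hL
      rcases List.mem_cons.1 hL with rfl | hL
      · rcases mem_mergeC _ _ _ _ hc with h | h
        · exact ⟨a, by simp, h⟩
        · exact ⟨b, by simp, h⟩
      · obtain ⟨L', h1, h2⟩ := ih l L hL c hc
        exact ⟨L', by simp [h1], h2⟩

lemma iter_succ (n : ℕ) (l : List (List ℕ)) : iter (n + 1) l = pairup 100000 (iter n l) := rfl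

lemma PP_iter (k n : ℕ) (l : List (List ℕ)) : PP k (iter n l) = PP k l := by
  induction n with
  | zero => rfl
  | succ n ih => rw [iter_succ, PP_pairup, ih]

lemma mem_iter (n : ℕ) (l : List (List ℕ)) : ∀ L ∈ iter n l, ∀ c ∈ L, ∃ L' ∈ l, c ∈ L' := by
  induction n with
  | zero => intro L hL c hc; exact ⟨L, hL, hc⟩
  | succ n ih =>
    intro L hL c hc
    rw [iter_succ] at hL
    obtain ⟨L', h1, h2⟩ := mem_pairup _ _ L hL c hc
    exact ih L' h1 c h2

lemma flat_eq (l : List (List ℕ)) : flat l = l.flatten := by
  induction l with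
  | nil => rfl
  | cons a l ih =>
    cases l with
    | nil =>
      have : flat [a] = a := rfl
      rw [this]; simp
    | cons b l =>
      have : flat (a :: b :: l) = a ++ flat (b :: l) := rfl
      rw [this, ih]
      simp

lemma P_flat (k : ℕ) (l : List (List ℕ)) : P k (flat l) = PP k l := by
  rw [flat_eq]
  induction l with
  | nil => rfl
  | cons a l ih => rw [List.flatten_cons, P_append, PP_cons, ih]

lemma foldS_next (k : ℕ) (full : List ℕ) : ∀ (l : List ℕ) (j : ℕ) (acc : List (List ℕ)),
    PP k (foldS (fun l acc => force (enc l) fun e => List.cons (List.cons e []) acc) full l j acc) =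
      foldS (fun l acc => Gc k (enc l) + acc) full l j (PP k acc) := by
  intro l
  induction l with
  | nil => intro j acc; rfl
  | cons d l ih =>
    intro j acc
    rw [foldS_cons, foldS_cons, ih, force_eq, PP_cons, P_cons, P_nil, add_zero]

lemma foldS_acc (k : ℕ) (full : List ℕ) : ∀ (l : List ℕ) (j : ℕ) (acc : ZMod 2),
    foldS (fun l acc => Gc k (enc l) + acc) full l j acc =
      foldS (fun l acc => Gc k (enc l) + acc) full l j 0 + acc := by
  intro l
  induction l with
  | nil => intro j acc; simp [foldS_nil]
  | cons d l ih =>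
    intro j acc
    rw [foldS_cons, foldS_cons, ih, ih (j + 1) (Gc k _ + 0)]
    ring

lemma PP_next1 (k c : ℕ) (acc : List (List ℕ)) :
    PP k (next1 c acc) = Gc (k + 1) c + PP k acc := by
  rw [next1, foldS_next, foldS_acc, Gc]

lemma expand_nil : expand [] = [] := rfl
lemma expand_cons (c : ℕ) (L : List ℕ) : expand (c :: L) = next1 c (expand L) := rfl

lemma PP_expand (k : ℕ) (L : List ℕ) : PP k (expand L) = P (k + 1) L := by
  induction L with
  | nil => rfl
  | cons c L ih => rw [expand_cons, PP_next1, ih, P_cons]

theorem P_next (k n : ℕ) (L : List ℕ) : P k (next n L) = P (k + 1) L := by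
  rw [next, P_flat, PP_iter, PP_expand]

/-! ## Codes in the lists come from states -/

def Real (m c : ℕ) : Prop := ∃ st, Valid st ∧ st.T ≤ m ∧ c = code st

lemma real_next1 {m c : ℕ} (hm : m < 15) (hc : Real m c) (acc : List (List ℕ))
    (hacc : ∀ L ∈ acc, ∀ c ∈ L, Real (m + 1) c) :
    ∀ L ∈ next1 c acc, ∀ c ∈ L, Real (m + 1) c := by
  obtain ⟨st, hv, hT, rfl⟩ := hc
  rw [next1, dec_code (by omega), foldS_digs _ hv (by omega)]
  have : ∀ (l : List ℕ) (acc : List (List ℕ)), (∀ L ∈ acc, ∀ c ∈ L, Real (m + 1) c) →
      ∀ L ∈ l.foldl (fun acc j => force (enc (digs (step st j)))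
        fun e => List.cons (List.cons e []) acc) acc, ∀ c ∈ L, Real (m + 1) c := by
    intro l
    induction l with
    | nil => intro acc h; simpa using h
    | cons a l ih =>
      intro acc h
      rw [List.foldl_cons]
      apply ih
      intro L hL c hc
      rw [force_eq] at hL
      rcases List.mem_cons.1 hL with rfl | hL
      · rw [List.mem_singleton] at hc
        refine ⟨step st a, hv.step a, ?_, hc⟩
        have hT' : (step st a).T = min st.T (st.K a) + 1 := rfl
        omega
      · exact h L hL c hc
  exact this _ _ hacc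

lemma real_expand {m : ℕ} (hm : m < 15) (L : List ℕ) (hL : ∀ c ∈ L, Real m c) :
    ∀ L' ∈ expand L, ∀ c ∈ L', Real (m + 1) c := by
  induction L with
  | nil => intro L' h; rw [expand_nil] at h; simp at h
  | cons c L ih =>
    rw [expand_cons]
    exact real_next1 hm (hL c (by simp)) _ (ih fun c hc => hL c (by simp [hc]))

theorem real_next {m : ℕ} (hm : m < 15) (n : ℕ) (L : List ℕ) (hL : ∀ c ∈ L, Real m c) :
    ∀ c ∈ next n L, Real (m + 1) c := by
  intro c hc
  rw [next, flat_eq, List.mem_flatten] at hc
  obtain ⟨L1, h1, h2⟩ := hc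
  obtain ⟨L2, h3, h4⟩ := mem_iter n _ L1 h1 c h2
  exact real_expand hm L hL L2 h3 c h4

end EvenWilf
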