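import Pool.Agent.H26.EvenWilf.Abs

/-!
# The machine counts the permutations without an occurrence of `42531`
-/

open Finset

namespace EvenWilf

open Classical in
/-- number of ways to add `k` new smallest entries without creating an occurrence -/
noncomputable def N : (k : ℕ) → {n : ℕ} → Equiv.Perm (Fin n) → ℕ
  | 0, _, _ => 1
  | k + 1, n, π => ∑ j : Fin (n + 1), if TT π j.val then 0 else N k (ins j π)

lemma G_eq_N (k : ℕ) : ∀ {n : ℕ} (π : Equiv.Perm (Fin n)) (st : St), Rep π st →
    G k st = N k π := by
  induction k with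
  | zero => intro n π st h; rfl
  | succ k ih =>
    intro n π st h
    classical
    have h1 : N (k + 1) π = ∑ j : Fin (n + 1), if st.T < j.val then 0 else G k (step st j.val) := by
      rw [N]
      refine sum_congr rfl fun j _ => ?_
      have hj : st.T < j.val ↔ TT π j.val := h.T_iff _ (Nat.lt_succ_iff.1 j.isLt)
      by_cases hc : TT π j.val
      · rw [if_pos hc, if_pos (hj.2 hc)]
      · rw [if_neg hc, if_neg (fun hh => hc (hj.1 hh))]
        exact (ih _ _ (rep_ins h j (by have := mt hj.1 hc; omega))).symm
    rw [h1, G, Fin.sum_univ_eq_sum_range (fun j => if st.T < j then 0 else G k (step st j)) (n + 1)]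
    have hle := h.le
    rw [← sum_subset (s₁ := range (st.T + 1)) (s₂ := range (n + 1))]
    · refine sum_congr rfl fun j hj => ?_
      rw [mem_range] at hj
      rw [if_neg (by omega)]
    · intro j hj
      rw [mem_range] at hj ⊢
      omega
    · intro j _ hj
      rw [mem_range] at hj
      rw [if_pos (by omega)]

open Classical in
noncomputable def S (m k : ℕ) : ℕ :=
  ∑ π : Equiv.Perm (Fin m), if Occ π then 0 else N k π

lemma S_succ (m k : ℕ) : S m (k + 1) = S (m + 1) k := by
  classical
  unfold S
  rw [sum_perm_succ]
  refine sum_congr rfl fun π _ => ?_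
  by_cases hO : Occ π
  · rw [if_pos hO]
    symm
    apply sum_eq_zero
    intro j _
    rw [if_pos]
    rw [occ_ins]
    exact Or.inl hO
  · rw [if_neg hO, N]
    refine sum_congr rfl fun j _ => ?_
    by_cases hT : TT π j.val
    · rw [if_pos hT, if_pos]
      rw [occ_ins]; exact Or.inr hT
    · rw [if_neg hT, if_neg]
      rw [occ_ins]; tauto

lemma S_add (n m k : ℕ) : S m (k + n) = S (m + n) k := by
  induction n generalizing m with
  | zero => rfl
  | succ n ih =>
    rw [← Nat.add_assoc, S_succ, ih]
    congr 1
    omega

open Classical in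
theorem card_av (n : ℕ) :
    (univ.filter fun π : Equiv.Perm (Fin n) => ¬ Occ π).card = G n st0 := by
  have h1 : S n 0 = (univ.filter fun π : Equiv.Perm (Fin n) => ¬ Occ π).card := by
    rw [S, card_filter]
    refine sum_congr rfl fun π _ => ?_
    by_cases hO : Occ π <;> simp [hO, N]
  rw [← h1]
  have h2 := S_add n 0 0
  simp only [zero_add] at h2
  rw [← h2, S]
  have h3 : ∀ π : Equiv.Perm (Fin 0), ¬ Occ π := by
    rintro π ⟨b, _⟩; exact b.elim0
  have h4 : ∀ π : Equiv.Perm (Fin 0), Rep π st0 := by
    intro π
    refine ⟨le_refl _, ?_, ?_, ?_⟩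
    · intro i hi
      constructor
      · intro h; omega
      · rintro ⟨b, _⟩; exact b.elim0
    · intro s hs i hi
      constructor
      · intro h; omega
      · rintro ⟨b, _⟩; exact b.elim0
    · intro s hs i hi
      constructor
      · intro h; omega
      · rintro ⟨b, _⟩; exact b.elim0
  have h5 : ∀ π : Equiv.Perm (Fin 0), (if Occ π then 0 else N n π) = G n st0 := by
    intro π
    rw [if_neg (h3 π)]
    exact (G_eq_N n π st0 (h4 π)).symm
  rw [sum_congr rfl (fun π _ => h5 π), sum_const]
  simp

end EvenWilf
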