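import Pool.Agent.H26.EvenWilf.Correct

/-!
# Closed form for three more entries, modulo two
-/

open Finset

namespace EvenWilf

/-! ## The number of ways to add one, two, three entries -/

lemma G_one (st : St) : G 1 st = st.T + 1 := by
  simp [G]

lemma G_two (st : St) : (G 2 st : ZMod 2) = ∑ s ∈ range (st.T + 1), ((min (st.K s) st.T : ℕ) : ZMod 2) := by
  have h0 : G 2 st = ∑ j ∈ range (st.T + 1), G 1 (step st j) := rfl
  rw [h0]
  push_cast [Nat.cast_sum]
  refine sum_congr rfl fun s _ => ?_
  rw [G_one]
  have hT' : (step st s).T = min st.T (st.K s) + 1 := rfl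
  rw [hT']
  have : min st.T (st.K s) + 1 + 1 = min (st.K s) st.T + 2 := by omega
  rw [this]
  push_cast
  have h2 : (2 : ZMod 2) = 0 := by decide
  rw [h2, add_zero]

/-- the summand of the closed form -/
def term (T : ℕ) (q K : ℕ → ℕ) (s i : ℕ) : ℕ :=
  if min (q s) T < i ∧ i ≤ min (K s) T then i + 1 + min (min (K s) T) (min (K i) T) else 0

lemma G_three {st : St} (hv : Valid st) : (G 3 st : ZMod 2) =
    ((st.T + 1) * ∑ s ∈ range (st.T + 1), min (st.K s) st.T +
      ∑ s ∈ range (st.T + 1), ∑ i ∈ range (st.T + 1), term st.T st.q st.K s i : ℕ) := by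
  obtain ⟨T, q, K⟩ := st
  have hsq := hv.sq
  have hqK := hv.qK
  simp only at hsq hqK ⊢
  have h2 : (2 : ZMod 2) = 0 := by decide
  -- first form
  have h1 : (G 3 ⟨T, q, K⟩ : ZMod 2) = ∑ j ∈ range (T + 1),
      (∑ s ∈ range (T + 1), (if s ≤ j then
        (if q s < j then ((min (min (K s) T) j : ℕ) : ZMod 2)
          else ((min (min (K s) T) (min (K j) T) + 1 : ℕ) : ZMod 2)) else 0) +
       ∑ s ∈ range (T + 1), (if j ≤ s ∧ s ≤ min (K j) T then
          ((min (min (K s) T) (min (K j) T) + 1 : ℕ) : ZMod 2) else 0)) := by
    rw [show (3 : ℕ) = 2 + 1 from rfl, G]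
    push_cast [Nat.cast_sum]
    refine sum_congr rfl fun j hj => ?_
    rw [mem_range] at hj
    rw [G_two]
    have hT' : (step ⟨T, q, K⟩ j).T = min T (K j) + 1 := rfl
    have hKj := hqK j
    have hqj := hsq j
    have hsplit : range ((step ⟨T, q, K⟩ j).T + 1) = range (j + 1) ∪
        (Ico (j + 1) ((step ⟨T, q, K⟩ j).T + 1)) := by
      ext x
      simp only [mem_range, mem_union, mem_Ico]
      omega
    rw [hsplit, sum_union]
    · congr 1
      · rw [← sum_subset (s₁ := range (j + 1)) (s₂ := range (T + 1))]
        · refine sum_congr rfl fun s hs => ?_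
          rw [mem_range] at hs
          rw [if_pos (by omega)]
          have e : (step ⟨T, q, K⟩ j).K s = if q s < j then min (K s) j else K s + 1 := by
            simp only [step]
            rw [if_pos (by omega)]
          rw [e, hT']
          split_ifs with hc
          · congr 1
            omega
          · have : min (K s + 1) (min T (K j) + 1) = min (min (K s) T) (min (K j) T) + 1 := by
              omega
            rw [this]
            push_cast
            rfl
        · intro x; simp only [mem_range]; omega
        · intro x _ hx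
          rw [mem_range] at hx
          rw [if_neg (by omega)]
      · rw [← sum_filter]
        have himg : Ico (j + 1) ((step ⟨T, q, K⟩ j).T + 1) =
            ((range (T + 1)).filter (fun s => j ≤ s ∧ s ≤ min (K j) T)).image (fun s => s + 1) := by
          ext x
          simp only [mem_Ico, mem_image, mem_filter, mem_range]
          constructor
          · intro hx
            exact ⟨x - 1, ⟨by omega, by omega, by omega⟩, by omega⟩
          · rintro ⟨s, ⟨h1, h2, h3⟩, rfl⟩
            omega
        rw [himg, sum_image (fun a _ b _ hab => by simpa using hab)]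
        refine sum_congr rfl fun s hs => ?_
        simp only [mem_filter, mem_range] at hs
        have e : (step ⟨T, q, K⟩ j).K (s + 1) = K s + 1 := by
          simp only [step]
          rw [if_neg (by omega), Nat.add_sub_cancel]
        rw [e, hT']
        have : min (K s + 1) (min T (K j) + 1) = min (min (K s) T) (min (K j) T) + 1 := by
          omega
        rw [this]
        push_cast
        rfl
    · rw [disjoint_left]
      intro x hx
      simp only [mem_range, mem_Ico] at hx ⊢
      omega
  rw [h1, sum_add_distrib]
  -- swap the first double sum so that both run over `s` then `j`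
  rw [sum_comm]
  rw [← sum_add_distrib]
  have h3 : ∀ s ∈ range (T + 1),
      (∑ j ∈ range (T + 1), (if s ≤ j then
        (if q s < j then ((min (min (K s) T) j : ℕ) : ZMod 2)
          else ((min (min (K s) T) (min (K j) T) + 1 : ℕ) : ZMod 2)) else 0) +
       ∑ j ∈ range (T + 1), (if s ≤ j ∧ j ≤ min (K s) T then
          ((min (min (K j) T) (min (K s) T) + 1 : ℕ) : ZMod 2) else 0)) =
      (((T + 1) * min (K s) T + ∑ i ∈ range (T + 1), term T q K s i : ℕ) : ZMod 2) := by
    intro s hs
    rw [mem_range] at hs
    rw [← sum_add_distrib]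
    have hs1 := hsq s
    have hs2 := hqK s
    have h4 : ∀ j ∈ range (T + 1),
        ((if s ≤ j then
        (if q s < j then ((min (min (K s) T) j : ℕ) : ZMod 2)
          else ((min (min (K s) T) (min (K j) T) + 1 : ℕ) : ZMod 2)) else 0) +
        (if s ≤ j ∧ j ≤ min (K s) T then
          ((min (min (K j) T) (min (K s) T) + 1 : ℕ) : ZMod 2) else 0)) =
        (term T q K s j : ZMod 2) + (if min (K s) T < j then ((min (K s) T : ℕ) : ZMod 2) else 0) := by
      intro j hj
      rw [mem_range] at hj
      unfold term
      by_cases c1 : s ≤ j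
      · by_cases c2 : q s < j
        · by_cases c3 : j ≤ min (K s) T
          · rw [if_pos c1, if_pos c2, if_pos ⟨c1, c3⟩, if_pos ⟨by omega, c3⟩,
              if_neg (by omega)]
            have e1 : min (min (K s) T) j = j := by omega
            have e2 : min (min (K j) T) (min (K s) T) = min (min (K s) T) (min (K j) T) :=
              min_comm _ _
            rw [e1, e2]
            push_cast
            ring
          · rw [if_pos c1, if_pos c2, if_neg (fun h => c3 h.2), if_neg (fun h => c3 h.2),
              if_pos (by omega)]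
            have e1 : min (min (K s) T) j = min (K s) T := by omega
            rw [e1]
            push_cast
            ring
        · have c3 : j ≤ min (K s) T := by omega
          rw [if_pos c1, if_neg c2, if_pos ⟨c1, c3⟩, if_neg (by omega), if_neg (by omega)]
          have e2 : min (min (K j) T) (min (K s) T) = min (min (K s) T) (min (K j) T) :=
            min_comm _ _
          rw [e2]
          push_cast
          linear_combination (((min (min (K s) T) (min (K j) T) : ℕ) : ZMod 2) + 1) * h2
      · rw [if_neg c1, if_neg (fun h => c1 h.1), if_neg (by omega), if_neg (by omega)]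
        push_cast
        ring
    rw [sum_congr rfl h4, sum_add_distrib, ← sum_filter, sum_const]
    have hcard : ((range (T + 1)).filter (fun j => min (K s) T < j)).card = T - min (K s) T := by
      have : (range (T + 1)).filter (fun j => min (K s) T < j) = Ico (min (K s) T + 1) (T + 1) := by
        ext x
        simp only [mem_filter, mem_range, mem_Ico]
        omega
      rw [this, Nat.card_Ico]
      omega
    rw [hcard]
    push_cast
    rw [add_comm]
    congr 1
    rw [nsmul_eq_mul]
    have hle : min (K s) T ≤ T := min_le_right _ _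
    rw [Nat.cast_sub hle]
    have hsquare : ∀ x : ZMod 2, x * x = x := by decide
    have hx := hsquare ((min (K s) T : ℕ) : ZMod 2)
    linear_combination -hx - (((min (K s) T : ℕ) : ZMod 2)) * h2
  rw [sum_congr rfl h3, ← Nat.cast_sum, sum_add_distrib, ← mul_sum]

/-! ## The evaluation functions -/

lemma sumK_nil : sumK [] = 0 := rfl
lemma sumK_cons (d : ℕ) (l : List ℕ) : sumK (d :: l) = d % 16 + sumK l := rfl
lemma len_nil : len [] = 0 := rfl
lemma len_cons (d : ℕ) (l : List ℕ) : len (d :: l) = len l + 1 := rfl

lemma pairs_nil (q K i : ℕ) : pairs q K [] i = 0 := rfl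

lemma pairs_cons (q K d i : ℕ) (l : List ℕ) : pairs q K (d :: l) i =
    if i ≤ q then pairs q K l (i + 1) else
      if i ≤ K then (i + 1 + min K (d % 16)) + pairs q K l (i + 1) else 0 := by
  have : pairs q K (d :: l) i = Bool.rec
        (Bool.rec 0 (Nat.add (Nat.add (Nat.succ i) (nmin K (Nat.mod d 16)))
          (pairs q K l (Nat.succ i)))
          (Nat.ble i K))
        (pairs q K l (Nat.succ i))
        (Nat.ble i q) := rfl
  rw [this]
  split_ifs with h h2
  · have hb : Nat.ble i q = true := by rw [Nat.ble_eq]; exact h
    rw [hb]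
  · have hb : Nat.ble i q = false := by rw [← Bool.not_eq_true, Nat.ble_eq]; exact h
    have hb2 : Nat.ble i K = true := by rw [Nat.ble_eq]; exact h2
    rw [hb, hb2]
    simp only
    rw [nmin_eq]
    rfl
  · have hb : Nat.ble i q = false := by rw [← Bool.not_eq_true, Nat.ble_eq]; exact h
    have hb2 : Nat.ble i K = false := by rw [← Bool.not_eq_true, Nat.ble_eq]; exact h2
    rw [hb, hb2]

lemma pairsAll_nil (s : ℕ) : pairsAll [] s = 0 := rfl

lemma pairsAll_cons (d s : ℕ) (l : List ℕ) : pairsAll (d :: l) s =
    pairs (d / 16) (d % 16) l (s + 1) + pairsAll l (s + 1) := rfl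

lemma seg_zero (st : St) (s : ℕ) : seg st s 0 = [] := rfl

lemma len_seg (st : St) (n : ℕ) : ∀ s, len (seg st s n) = n := by
  induction n with
  | zero => intro s; rfl
  | succ n ih => intro s; rw [seg_succ, len_cons, ih]

lemma sumK_seg {st : St} (hT : st.T < 16) (n : ℕ) : ∀ s, sumK (seg st s n) =
    ∑ i ∈ Ico s (s + n), min (st.K i) st.T := by
  induction n with
  | zero => intro s; simp [seg_zero, sumK_nil]
  | succ n ih =>
    intro s
    have e : s + 1 + n = s + (n + 1) := by omega
    rw [seg_succ, sumK_cons, dg_mod hT, ih, e,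
      Finset.sum_eq_sum_Ico_succ_bot (by omega : s < s + (n + 1))]

lemma pairs_seg {st : St} (hT : st.T < 16) {s : ℕ} (n : ℕ) : ∀ i,
    pairs (min (st.q s) st.T) (min (st.K s) st.T) (seg st i n) i =
    ∑ i' ∈ Ico i (i + n), term st.T st.q st.K s i' := by
  induction n with
  | zero => intro i; simp [seg_zero, pairs_nil]
  | succ n ih =>
    intro i
    have e : i + 1 + n = i + (n + 1) := by omega
    rw [seg_succ, pairs_cons, dg_mod hT, ih, e,
      Finset.sum_eq_sum_Ico_succ_bot (by omega : i < i + (n + 1))]
    split_ifs with h1 h2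
    · have : term st.T st.q st.K s i = 0 := by
        unfold term; rw [if_neg]; omega
      rw [this, zero_add]
    · have : term st.T st.q st.K s i = i + 1 + min (min (st.K s) st.T) (min (st.K i) st.T) := by
        unfold term; rw [if_pos]; omega
      rw [this]
    · symm
      rw [← Finset.sum_eq_sum_Ico_succ_bot (by omega : i < i + (n + 1))]
      apply sum_eq_zero
      intro i' hi'
      rw [mem_Ico] at hi'
      unfold term
      rw [if_neg]
      omega

lemma pairsAll_seg {st : St} (hv : Valid st) (hT : st.T < 16) (n : ℕ) : ∀ s, s + n = st.T + 1 →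
    pairsAll (seg st s n) s =
    ∑ s' ∈ Ico s (s + n), ∑ i ∈ range (st.T + 1), term st.T st.q st.K s' i := by
  induction n with
  | zero => intro s _; simp [seg_zero, pairsAll_nil]
  | succ n ih =>
    intro s hs
    rw [seg_succ, pairsAll_cons, dg_mod hT, dg_div hT, ih (s + 1) (by omega), pairs_seg hT,
      Finset.sum_eq_sum_Ico_succ_bot (by omega : s < s + (n + 1))]
    have e : s + 1 + n = s + (n + 1) := by omega
    rw [e]
    congr 1
    apply sum_subset
    · intro x; simp only [mem_Ico, mem_range]; omega
    · intro x hx hx'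
      simp only [mem_Ico, mem_range] at hx hx'
      have := hv.sq s
      unfold term
      rw [if_neg]
      omega

theorem ev3_digs {st : St} (hv : Valid st) (hT : st.T < 16) :
    (ev3 (digs st) : ZMod 2) = (G 3 st : ZMod 2) := by
  have h : ev3 (digs st) = len (digs st) * sumK (digs st) + pairsAll (digs st) 0 := rfl
  rw [G_three hv, h, digs, len_seg, sumK_seg hT, pairsAll_seg hv hT _ 0 (by omega)]
  simp only [zero_add, Nat.Ico_zero_eq_range]

lemma cast_mod_two (n : ℕ) : ((n % 2 : ℕ) : ZMod 2) = n := by
  have := Nat.div_add_mod n 2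
  have h2 : (2 : ZMod 2) = 0 := by decide
  conv_rhs => rw [← this]
  push_cast
  rw [h2, zero_mul, zero_add]

theorem ev4_code {st : St} (hv : Valid st) (hT : st.T < 12) (acc : ℕ) :
    (ev4 (code st) acc : ZMod 2) = Gc 4 (code st) + acc := by
  rw [Gc_code 4 st hv (by omega)]
  have h1 : ev4 (code st) acc = foldS (fun l acc => (ev3 l + acc) % 2) (digs st) (digs st) 0 acc := by
    have : ev4 (code st) acc = foldS (fun l acc => force (Nat.mod (Nat.add (ev3 l) acc) 2)
      fun e => e) (dec 20 (code st)) (dec 20 (code st)) 0 acc := rfl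
    rw [this, dec_code (by omega)]
    congr 1
    funext l acc
    rw [force_eq]
    rfl
  rw [h1, foldS_digs _ hv (by omega)]
  have h2 : ∀ (l : List ℕ) (acc : ℕ), ((l.foldl (fun acc j => (ev3 (digs (step st j)) + acc) % 2)
      acc : ℕ) : ZMod 2) = (l.map fun j => (ev3 (digs (step st j)) : ZMod 2)).sum + acc := by
    intro l
    induction l with
    | nil => intro acc; simp
    | cons a l ih =>
      intro acc
      rw [List.foldl_cons, ih, List.map_cons, List.sum_cons, cast_mod_two]
      push_cast
      ring
  rw [h2, sum_map_range]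
  congr 1
  have h3 : G 4 st = ∑ j ∈ range (st.T + 1), G 3 (step st j) := rfl
  rw [h3]
  push_cast [Nat.cast_sum]
  refine sum_congr rfl fun j hj => ?_
  have hT' : (step st j).T = min st.T (st.K j) + 1 := rfl
  exact ev3_digs (hv.step j) (by omega)

lemma ev4L_nil : ev4L [] = 0 := rfl
lemma ev4L_cons (c : ℕ) (L : List ℕ) : ev4L (c :: L) = ev4 c (ev4L L) := rfl

theorem ev4L_eq {m : ℕ} (hm : m < 12) (L : List ℕ) (hL : ∀ c ∈ L, Real m c) :
    (ev4L L : ZMod 2) = P 4 L := by
  induction L with
  | nil => simp [ev4L_nil, P_nil]
  | cons c L ih =>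
    obtain ⟨st, hv, hT, hc⟩ := hL c (by simp)
    rw [ev4L_cons, P_cons, hc, ev4_code hv (by omega), ih (fun c hc => hL c (by simp [hc]))]

theorem ev_chunk {m : ℕ} (hm : m < 11) (n : ℕ) (L : List ℕ) (hL : ∀ c ∈ L, Real m c) (v : ℕ)
    (h : Nat.mod (ev4L (next n L)) 2 = v) : P 5 L = v := by
  rw [← P_next 4 n L, ← ev4L_eq (m := m + 1) (by omega) _ (real_next (by omega) n L hL), ← h]
  exact (cast_mod_two _).symm

end EvenWilf
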