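import Pool.Agent.H26.EvenWilf.Data

set_option maxRecDepth 1000000

namespace EvenWilf

theorem ev_C1 : Nat.mod (ev4L (next 10 C1)) 2 = 1 := by decide +kernel

theorem ev_C2 : Nat.mod (ev4L (next 10 C2)) 2 = 1 := by decide +kernel

theorem ev_C3 : Nat.mod (ev4L (next 10 C3)) 2 = 0 := by decide +kernel

theorem ev_C4 : Nat.mod (ev4L (next 10 C4)) 2 = 0 := by decide +kernel

theorem ev_C5 : Nat.mod (ev4L (next 10 C5)) 2 = 1 := by decide +kernel

theorem ev_C6 : Nat.mod (ev4L (next 10 C6)) 2 = 0 := by decide +kernel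

theorem ev_C7 : Nat.mod (ev4L (next 10 C7)) 2 = 0 := by decide +kernel

theorem ev_C8 : Nat.mod (ev4L (next 10 C8)) 2 = 1 := by decide +kernel

theorem ev_C9 : Nat.mod (ev4L (next 10 C9)) 2 = 0 := by decide +kernel

theorem ev_C10 : Nat.mod (ev4L (next 10 C10)) 2 = 0 := by decide +kernel

theorem ev_C11 : Nat.mod (ev4L (next 10 C11)) 2 = 0 := by decide +kernel

theorem ev_C12 : Nat.mod (ev4L (next 10 C12)) 2 = 0 := by decide +kernel

theorem ev_C13 : Nat.mod (ev4L (next 10 C13)) 2 = 1 := by decide +kernel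

theorem ev_C14 : Nat.mod (ev4L (next 10 C14)) 2 = 0 := by decide +kernel

theorem ev_C15 : Nat.mod (ev4L (next 10 C15)) 2 = 1 := by decide +kernel

theorem ev_C16 : Nat.mod (ev4L (next 10 C16)) 2 = 0 := by decide +kernel

theorem ev_C17 : Nat.mod (ev4L (next 10 C17)) 2 = 0 := by decide +kernel

theorem ev_C18 : Nat.mod (ev4L (next 10 C18)) 2 = 0 := by decide +kernel

theorem ev_C19 : Nat.mod (ev4L (next 10 C19)) 2 = 1 := by decide +kernel

end EvenWilf
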