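import Pool.Agent.H26.EvenWilf.Data

set_option maxRecDepth 1000000

namespace EvenWilf

theorem ev_C20 : Nat.mod (ev4L (next 10 C20)) 2 = 1 := by decide +kernel

theorem ev_C21 : Nat.mod (ev4L (next 10 C21)) 2 = 0 := by decide +kernel

theorem ev_C22 : Nat.mod (ev4L (next 10 C22)) 2 = 1 := by decide +kernel

theorem ev_C23 : Nat.mod (ev4L (next 10 C23)) 2 = 1 := by decide +kernel

theorem ev_C24 : Nat.mod (ev4L (next 10 C24)) 2 = 1 := by decide +kernel

theorem ev_C25 : Nat.mod (ev4L (next 10 C25)) 2 = 0 := by decide +kernel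

theorem ev_C26 : Nat.mod (ev4L (next 10 C26)) 2 = 1 := by decide +kernel

theorem ev_C27 : Nat.mod (ev4L (next 10 C27)) 2 = 1 := by decide +kernel

theorem ev_C28 : Nat.mod (ev4L (next 10 C28)) 2 = 1 := by decide +kernel

theorem ev_C29 : Nat.mod (ev4L (next 10 C29)) 2 = 1 := by decide +kernel

theorem ev_C30 : Nat.mod (ev4L (next 10 C30)) 2 = 1 := by decide +kernel

theorem ev_C31 : Nat.mod (ev4L (next 10 C31)) 2 = 0 := by decide +kernel

theorem ev_C32 : Nat.mod (ev4L (next 10 C32)) 2 = 1 := by decide +kernel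

theorem ev_C33 : Nat.mod (ev4L (next 10 C33)) 2 = 1 := by decide +kernel

theorem ev_C34 : Nat.mod (ev4L (next 10 C34)) 2 = 0 := by decide +kernel

theorem ev_C35 : Nat.mod (ev4L (next 10 C35)) 2 = 0 := by decide +kernel

theorem ev_C36 : Nat.mod (ev4L (next 10 C36)) 2 = 1 := by decide +kernel

theorem ev_C37 : Nat.mod (ev4L (next 10 C37)) 2 = 0 := by decide +kernel

theorem ev_C38 : Nat.mod (ev4L (next 10 C38)) 2 = 0 := by decide +kernel

end EvenWilf
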