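import Pool.Agent.H26.EvenWilf.Data

set_option maxRecDepth 1000000

namespace EvenWilf

theorem ev_C39 : Nat.mod (ev4L (next 10 C39)) 2 = 0 := by decide +kernel

theorem ev_C40 : Nat.mod (ev4L (next 10 C40)) 2 = 1 := by decide +kernel

theorem ev_C41 : Nat.mod (ev4L (next 10 C41)) 2 = 1 := by decide +kernel

theorem ev_C42 : Nat.mod (ev4L (next 10 C42)) 2 = 0 := by decide +kernel

theorem ev_C43 : Nat.mod (ev4L (next 10 C43)) 2 = 1 := by decide +kernel

theorem ev_C44 : Nat.mod (ev4L (next 10 C44)) 2 = 1 := by decide +kernel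

theorem ev_C45 : Nat.mod (ev4L (next 10 C45)) 2 = 1 := by decide +kernel

theorem ev_C46 : Nat.mod (ev4L (next 10 C46)) 2 = 1 := by decide +kernel

theorem ev_C47 : Nat.mod (ev4L (next 10 C47)) 2 = 0 := by decide +kernel

theorem ev_C48 : Nat.mod (ev4L (next 10 C48)) 2 = 0 := by decide +kernel

theorem ev_C49 : Nat.mod (ev4L (next 10 C49)) 2 = 1 := by decide +kernel

theorem ev_C50 : Nat.mod (ev4L (next 10 C50)) 2 = 0 := by decide +kernel

theorem ev_C51 : Nat.mod (ev4L (next 10 C51)) 2 = 0 := by decide +kernel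

theorem ev_C52 : Nat.mod (ev4L (next 10 C52)) 2 = 1 := by decide +kernel

theorem ev_C53 : Nat.mod (ev4L (next 10 C53)) 2 = 1 := by decide +kernel

theorem ev_C54 : Nat.mod (ev4L (next 10 C54)) 2 = 0 := by decide +kernel

theorem ev_C55 : Nat.mod (ev4L (next 10 C55)) 2 = 1 := by decide +kernel

theorem ev_C56 : Nat.mod (ev4L (next 10 C56)) 2 = 0 := by decide +kernel

end EvenWilf
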