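import Pool.Agent.H26.EvenWilf.Data

/-!
# The states of levels `0` to `9`
-/

set_option maxRecDepth 1000000

noncomputable section

namespace EvenWilf

/-- merges two lists -/
def mergeN (fuel : Nat) : List Nat → List Nat → List Nat :=
  Nat.rec (fun a b => a ++ b) (fun _ ih a b =>
    List.rec b (fun x xs _ => List.rec a (fun y ys _ =>
       Bool.rec (List.cons x (ih xs b)) (List.cons y (ih a ys))
         (Nat.ble (Nat.succ y) x)) b) a) fuel

def pairupN (fuel : Nat) : List (List Nat) → List (List Nat) :=
  Nat.rec (fun l => l) (fun _ ih l =>
    List.rec [] (fun a l1 _ =>
      List.rec (List.cons a []) (fun b l2 _ => List.cons (mergeN 100000 a b) (ih l2)) l1) l) fuel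

def iterN (k : Nat) (l : List (List Nat)) : List (List Nat) :=
  Nat.rec l (fun _ ih => pairupN 100000 ih) k

def L0 : List Nat := [256]
def L1 : List Nat := next 2 L0
def L2 : List Nat := next 3 L1
def L3 : List Nat := next 4 L2
def L4 : List Nat := next 5 L3
def L5 : List Nat := next 7 L4
def L6 : List Nat := next 9 L5
def L7 : List Nat := next 11 L6
def L8 : List Nat := next 13 L7
def L9 : List Nat := next 15 L8

def singles (l : List Nat) (acc : List (List Nat)) : List (List Nat) :=
  List.rec acc (fun c _ ih => List.cons (List.cons c []) ih) l

def allC : List (List Nat) :=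
  singles C1 (singles C2 (singles C3 (singles C4 (singles C5 (singles C6 (singles C7
  (singles C8 (singles C9 (singles C10 (singles C11 (singles C12 (singles C13 (singles C14
  (singles C15 (singles C16 (singles C17 (singles C18 (singles C19 (singles C20
  (singles C21 (singles C22 (singles C23 (singles C24 (singles C25 (singles C26
  (singles C27 (singles C28 (singles C29 (singles C30 (singles C31 (singles C32
  (singles C33 (singles C34 (singles C35 (singles C36 (singles C37 (singles C38
  (singles C39 (singles C40 (singles C41 (singles C42 (singles C43 (singles C44
  (singles C45 (singles C46 (singles C47 (singles C48 (singles C49 (singles C50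
  (singles C51 (singles C52 (singles C53 (singles C54 (singles C55 (singles C56
  [])))))))))))))))))))))))))))))))))))))))))))))))))))))))

theorem L9_beq : beqL L9 (flat (iterN 13 allC)) = true := by decide +kernel

end EvenWilf
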