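import Mathlib.Data.Nat.Basic

/-!
# A counting machine for `42531`-avoiding permutations, modulo two

Everything in this file is meant to be evaluated by the kernel; the functions are written with
the raw recursors.  The correctness statements are in `Correct.lean`.

A state is a list of digits `d = 16 * q + K`, one per active site `0, 1, …, T`.
-/

set_option maxRecDepth 1000000

noncomputable section

namespace EvenWilf

/-- evaluates its first argument before using it -/
@[reducible] def force {α : Type} (n : Nat) (f : Nat → α) : α :=
  Nat.rec (f 0) (fun m _ => f (Nat.succ m)) n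

def nmin (a b : Nat) : Nat := Bool.rec b a (Nat.ble a b)

/-- `l` holds the old digits at the sites `s, s+1, …`; the result holds the new digits at the
sites `s+1, …, T'`. -/
def hiD (T' : Nat) (l : List Nat) : Nat → List Nat :=
  List.rec (fun _ => [])
    (fun d _ ih s =>
      Bool.rec
        (force (Nat.add (Nat.mul 16 (Nat.succ s)) (nmin (Nat.succ (Nat.mod d 16)) T')) fun e =>
          List.cons e (ih (Nat.succ s)))
        []
        (Nat.ble T' s)) l

/-- the new digit at a site `s ≤ j` -/
def loDig (j T' d : Nat) : Nat :=
  Bool.rec
    (Nat.add (Nat.mul 16 (nmin (Nat.succ (Nat.div d 16)) T')) (nmin (Nat.succ (Nat.mod d 16)) T'))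
    (Nat.add (Nat.mul 16 (Nat.div d 16)) (nmin (Nat.mod d 16) j))
    (Nat.ble (Nat.succ (Nat.div d 16)) j)

/-- `l` holds the old digits at the sites `s, s+1, …` with `s ≤ j`; the result holds the new
digits at the sites `s, …, T'`. -/
def loD (j T' : Nat) (l : List Nat) : Nat → List Nat :=
  List.rec (fun _ => [])
    (fun d rest ih s =>
      force (loDig j T' d) fun e =>
        List.cons e
          (Bool.rec (hiD T' (List.cons d rest) s) (ih (Nat.succ s)) (Nat.ble (Nat.succ s) j))) l

/-- folds `F` over the successors of the state `full`; `l` holds the digits from site `j` on -/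
def foldS {α : Type} (F : List Nat → α → α) (full l : List Nat) : Nat → α → α :=
  List.rec (fun _ acc => acc)
    (fun d _ ih j acc =>
      ih (Nat.succ j) (force (Nat.succ (Nat.mod d 16)) fun T' => F (loD j T' full 0) acc)) l

/-- code of a digit list -/
def enc (l : List Nat) : Nat := List.rec 1 (fun d _ ih => Nat.add (Nat.mul ih 256) d) l

def dec (fuel : Nat) : Nat → List Nat :=
  Nat.rec (fun _ => [])
    (fun _ ih c =>
      Bool.rec (force (Nat.div c 256) fun c' => List.cons (Nat.mod c 256) (ih c')) []
        (Nat.ble c 1)) fuel

def next1 (c : Nat) (acc : List (List Nat)) : List (List Nat) :=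
  foldS (fun l acc => force (enc l) fun e => List.cons (List.cons e []) acc) (dec 20 c) (dec 20 c)
    0 acc

/-- merges two lists, dropping equal elements in pairs -/
def mergeC (fuel : Nat) : List Nat → List Nat → List Nat :=
  Nat.rec (fun a b => a ++ b) (fun _ ih a b =>
    List.rec b (fun x xs _ => List.rec a (fun y ys _ =>
       Bool.rec
         (Bool.rec (List.cons x (ih xs b)) (ih xs ys) (Nat.beq x y))
         (List.cons y (ih a ys))
         (Nat.ble (Nat.succ y) x)) b) a) fuel

def pairup (fuel : Nat) : List (List Nat) → List (List Nat) :=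
  Nat.rec (fun l => l) (fun _ ih l =>
    List.rec [] (fun a l1 _ =>
      List.rec (List.cons a []) (fun b l2 _ => List.cons (mergeC 100000 a b) (ih l2)) l1) l) fuel

def expand (L : List Nat) : List (List Nat) := List.rec [] (fun c _ ih => next1 c ih) L

def iter (k : Nat) (l : List (List Nat)) : List (List Nat) :=
  Nat.rec l (fun _ ih => pairup 100000 ih) k

def flat (l : List (List Nat)) : List Nat :=
  List.rec [] (fun a rest ih => List.rec a (fun _ _ _ => a ++ ih) rest) l

def next (k : Nat) (L : List Nat) : List Nat := flat (iter k (expand L))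

/-- the sum of the last digits -/
def sumK (l : List Nat) : Nat := List.rec 0 (fun d _ ih => Nat.add (Nat.mod d 16) ih) l

def len (l : List Nat) : Nat := List.rec 0 (fun _ _ ih => Nat.succ ih) l

/-- sum of `i + 1 + min K Kᵢ` over `q < i ≤ K`, where `l` holds the digits from site `i` on -/
def pairs (q K : Nat) (l : List Nat) : Nat → Nat :=
  List.rec (fun _ => 0)
    (fun d _ ih i =>
      Bool.rec
        (Bool.rec 0 (Nat.add (Nat.add (Nat.succ i) (nmin K (Nat.mod d 16))) (ih (Nat.succ i)))
          (Nat.ble i K))
        (ih (Nat.succ i))
        (Nat.ble i q)) l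

def pairsAll (l : List Nat) : Nat → Nat :=
  List.rec (fun _ => 0)
    (fun d rest ih s =>
      Nat.add (pairs (Nat.div d 16) (Nat.mod d 16) rest (Nat.succ s)) (ih (Nat.succ s))) l

/-- congruent modulo two to the number of ways to add three more entries -/
def ev3 (l : List Nat) : Nat := Nat.add (Nat.mul (len l) (sumK l)) (pairsAll l 0)

/-- congruent modulo two to the number of ways to add four more entries -/
def ev4 (c acc : Nat) : Nat :=
  foldS (fun l acc => force (Nat.mod (Nat.add (ev3 l) acc) 2) fun e => e) (dec 20 c) (dec 20 c)
    0 acc

def ev4L (L : List Nat) : Nat := List.rec 0 (fun c _ ih => ev4 c ih) L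

def beqL (a : List Nat) : List Nat → Bool :=
  List.rec (fun b => List.rec true (fun _ _ _ => false) b)
    (fun x _ ih b => List.rec false (fun y ys _ => Bool.rec false (ih ys) (Nat.beq x y)) b) a

end EvenWilf
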