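import Pool.Agent.H26.EvenWilf.Count
import Pool.Agent.H26.EvenWilf.Eval
import Pool.Agent.H26.EvenWilf.Levels
import Pool.Agent.H26.EvenWilf.Eval1
import Pool.Agent.H26.EvenWilf.Eval2
import Pool.Agent.H26.EvenWilf.Eval3

/-!
# The number of permutations in `S₁₄` without an occurrence of `42531` is odd
-/

open Finset

namespace EvenWilf

lemma mergeN_zero (a b : List ℕ) : mergeN 0 a b = a ++ b := rfl
lemma mergeN_nil (n : ℕ) (b : List ℕ) : mergeN (n + 1) [] b = b := rfl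
lemma mergeN_cons_nil (n x : ℕ) (a : List ℕ) : mergeN (n + 1) (x :: a) [] = x :: a := rfl

lemma mergeN_cons_cons (n x y : ℕ) (a b : List ℕ) : mergeN (n + 1) (x :: a) (y :: b) =
    if y < x then y :: mergeN n (x :: a) b else x :: mergeN n a (y :: b) := by
  have : mergeN (n + 1) (x :: a) (y :: b) = Bool.rec
         (List.cons x (mergeN n a (y :: b)))
         (List.cons y (mergeN n (x :: a) b))
         (Nat.ble (Nat.succ y) x) := rfl
  rw [this]
  split_ifs with h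
  · have hb : Nat.ble (Nat.succ y) x = true := by rw [Nat.ble_eq]; exact h
    rw [hb]
  · have hb : Nat.ble (Nat.succ y) x = false := by rw [← Bool.not_eq_true, Nat.ble_eq]; exact h
    rw [hb]

lemma mergeN_perm (n : ℕ) : ∀ a b, (mergeN n a b).Perm (a ++ b) := by
  induction n with
  | zero => intro a b; rw [mergeN_zero]
  | succ n ih =>
    intro a b
    cases a with
    | nil => rw [mergeN_nil]; simp
    | cons x a =>
      cases b with
      | nil => rw [mergeN_cons_nil]; simp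
      | cons y b =>
        rw [mergeN_cons_cons]
        split_ifs with h
        · exact ((ih (x :: a) b).cons y).trans List.perm_middle.symm
        · exact (ih a (y :: b)).cons x

lemma pairupN_perm (n : ℕ) : ∀ l, ((pairupN n l).flatten).Perm l.flatten := by
  induction n with
  | zero => intro l; exact List.Perm.refl _
  | succ n ih =>
    intro l
    match l with
    | [] => exact List.Perm.refl _
    | [a] => exact List.Perm.refl _
    | a :: b :: l =>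
      have : pairupN (n + 1) (a :: b :: l) = mergeN 100000 a b :: pairupN n l := rfl
      rw [this, List.flatten_cons, List.flatten_cons, List.flatten_cons, ← List.append_assoc]
      exact (mergeN_perm _ a b).append (ih l)

lemma iterN_perm (n : ℕ) (l : List (List ℕ)) : ((iterN n l).flatten).Perm l.flatten := by
  induction n with
  | zero => exact List.Perm.refl _
  | succ n ih =>
    have : iterN (n + 1) l = pairupN 100000 (iterN n l) := rfl
    rw [this]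
    exact (pairupN_perm _ _).trans ih

lemma singles_flatten (l : List ℕ) (acc : List (List ℕ)) :
    (singles l acc).flatten = l ++ acc.flatten := by
  induction l with
  | nil => rfl
  | cons a l ih =>
    have : singles (a :: l) acc = [a] :: singles l acc := rfl
    rw [this, List.flatten_cons, ih]
    simp

lemma beqL_eq (a : List ℕ) : ∀ b, beqL a b = true → a = b := by
  induction a with
  | nil =>
    intro b h
    cases b with
    | nil => rfl
    | cons y b => exact absurd (show (false : Bool) = true from h) (by decide)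
  | cons x a ih =>
    intro b h
    cases b with
    | nil => exact absurd (show (false : Bool) = true from h) (by decide)
    | cons y b =>
      have e : beqL (x :: a) (y :: b) = Bool.rec false (beqL a b) (Nat.beq x y) := rfl
      rw [e] at h
      cases hb : Nat.beq x y with
      | false => rw [hb] at h; exact absurd (show (false : Bool) = true from h) (by decide)
      | true =>
        rw [hb] at h
        rw [Nat.eq_of_beq_eq_true hb, ih b h]

/-- the chunks together -/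
def allL : List ℕ :=
  C1 ++ ( C2 ++ ( C3 ++ ( C4 ++ ( C5 ++ ( C6 ++ ( C7 ++ ( C8 ++ ( C9 ++ ( C10 ++ ( C11 ++ (
  C12 ++ ( C13 ++ ( C14 ++ ( C15 ++ ( C16 ++ ( C17 ++ ( C18 ++ ( C19 ++ ( C20 ++ ( C21 ++ (
  C22 ++ ( C23 ++ ( C24 ++ ( C25 ++ ( C26 ++ ( C27 ++ ( C28 ++ ( C29 ++ ( C30 ++ ( C31 ++ (
  C32 ++ ( C33 ++ ( C34 ++ ( C35 ++ ( C36 ++ ( C37 ++ ( C38 ++ ( C39 ++ ( C40 ++ ( C41 ++ (
  C42 ++ ( C43 ++ ( C44 ++ ( C45 ++ ( C46 ++ ( C47 ++ ( C48 ++ ( C49 ++ ( C50 ++ ( C51 ++ (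
  C52 ++ ( C53 ++ ( C54 ++ ( C55 ++
  C56))))))))))))))))))))))))))))))))))))))))))))))))))))))

lemma L9_perm : L9.Perm allL := by
  rw [beqL_eq _ _ L9_beq, flat_eq]
  refine (iterN_perm 13 allC).trans ?_
  have : allC.flatten = allL := by
    unfold allC allL
    simp only [singles_flatten, List.flatten_nil, List.append_nil]
  rw [this]

lemma P_perm (k : ℕ) {L L' : List ℕ} (h : L.Perm L') : P k L = P k L' :=
  (h.map _).sum_eq

lemma code_st0 : code st0 = 256 := by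
  have : digs st0 = [0] := by
    simp [digs, seg, dg, st0]
  rw [code, this]
  rfl

lemma real_L0 : ∀ c ∈ L0, Real 0 c := by
  intro c hc
  have : c = 256 := by simpa [L0] using hc
  exact ⟨st0, valid0, le_refl _, by rw [this, code_st0]⟩

lemma real_L9 : ∀ c ∈ L9, Real 9 c := by
  have h1 := real_next (m := 0) (by norm_num) 2 L0 real_L0
  have h2 := real_next (m := 1) (by norm_num) 3 L1 h1
  have h3 := real_next (m := 2) (by norm_num) 4 L2 h2
  have h4 := real_next (m := 3) (by norm_num) 5 L3 h3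
  have h5 := real_next (m := 4) (by norm_num) 7 L4 h4
  have h6 := real_next (m := 5) (by norm_num) 9 L5 h5
  have h7 := real_next (m := 6) (by norm_num) 11 L6 h6
  have h8 := real_next (m := 7) (by norm_num) 13 L7 h7
  exact real_next (m := 8) (by norm_num) 15 L8 h8

lemma P_L9 : P 14 L0 = P 5 L9 := by
  have h1 : P 13 L1 = P 14 L0 := P_next 13 2 L0
  have h2 : P 12 L2 = P 13 L1 := P_next 12 3 L1
  have h3 : P 11 L3 = P 12 L2 := P_next 11 4 L2
  have h4 : P 10 L4 = P 11 L3 := P_next 10 5 L3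
  have h5 : P 9 L5 = P 10 L4 := P_next 9 7 L4
  have h6 : P 8 L6 = P 9 L5 := P_next 8 9 L5
  have h7 : P 7 L7 = P 8 L6 := P_next 7 11 L6
  have h8 : P 6 L8 = P 7 L7 := P_next 6 13 L7
  have h9 : P 5 L9 = P 6 L8 := P_next 5 15 L8
  rw [h9, h8, h7, h6, h5, h4, h3, h2, h1]

lemma real_all : ∀ c ∈ allL, Real 9 c := fun c hc => real_L9 c (L9_perm.mem_iff.2 hc)

lemma mr {α : Type*} {a : α} {l l' : List α} (h : a ∈ l') : a ∈ l ++ l' :=
  List.mem_append_right _ h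

lemma P_C1 : P 5 C1 = ((1 : ℕ) : ZMod 2) :=
  ev_chunk (m := 9) (by norm_num) 10 C1 (fun c hc => real_all c
    (List.mem_append_left _ hc)) _ ev_C1

lemma P_C2 : P 5 C2 = ((1 : ℕ) : ZMod 2) :=
  ev_chunk (m := 9) (by norm_num) 10 C2 (fun c hc => real_all c
    (mr (List.mem_append_left _ hc))) _ ev_C2

lemma P_C3 : P 5 C3 = ((0 : ℕ) : ZMod 2) :=
  ev_chunk (m := 9) (by norm_num) 10 C3 (fun c hc => real_all c
    (mr (mr (List.mem_append_left _ hc)))) _ ev_C3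

lemma P_C4 : P 5 C4 = ((0 : ℕ) : ZMod 2) :=
  ev_chunk (m := 9) (by norm_num) 10 C4 (fun c hc => real_all c
    (mr (mr (mr (List.mem_append_left _ hc))))) _ ev_C4

lemma P_C5 : P 5 C5 = ((1 : ℕ) : ZMod 2) :=
  ev_chunk (m := 9) (by norm_num) 10 C5 (fun c hc => real_all c
    (mr (mr (mr (mr (List.mem_append_left _ hc)))))) _ ev_C5

lemma P_C6 : P 5 C6 = ((0 : ℕ) : ZMod 2) :=
  ev_chunk (m := 9) (by norm_num) 10 C6 (fun c hc => real_all c
    (mr (mr (mr (mr (mr (List.mem_append_left _ hc))))))) _ ev_C6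

lemma P_C7 : P 5 C7 = ((0 : ℕ) : ZMod 2) :=
  ev_chunk (m := 9) (by norm_num) 10 C7 (fun c hc => real_all c
    (mr (mr (mr (mr (mr (mr (List.mem_append_left _ hc)))))))) _ ev_C7

lemma P_C8 : P 5 C8 = ((1 : ℕ) : ZMod 2) :=
  ev_chunk (m := 9) (by norm_num) 10 C8 (fun c hc => real_all c
    (mr (mr (mr (mr (mr (mr (mr (List.mem_append_left _ hc))))))))) _ ev_C8

lemma P_C9 : P 5 C9 = ((0 : ℕ) : ZMod 2) :=
  ev_chunk (m := 9) (by norm_num) 10 C9 (fun c hc => real_all c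
    (mr (mr (mr (mr (mr (mr (mr (mr (List.mem_append_left _ hc)))))))))) _ ev_C9

lemma P_C10 : P 5 C10 = ((0 : ℕ) : ZMod 2) :=
  ev_chunk (m := 9) (by norm_num) 10 C10 (fun c hc => real_all c
    (mr (mr (mr (mr (mr (mr (mr (mr (mr (List.mem_append_left _ hc))))))))))) _ ev_C10

lemma P_C11 : P 5 C11 = ((0 : ℕ) : ZMod 2) :=
  ev_chunk (m := 9) (by norm_num) 10 C11 (fun c hc => real_all c
    (mr (mr (mr (mr (mr (mr (mr (mr (mr (mr (List.mem_append_left _ hc)))))))))))) _ ev_C11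

lemma P_C12 : P 5 C12 = ((0 : ℕ) : ZMod 2) :=
  ev_chunk (m := 9) (by norm_num) 10 C12 (fun c hc => real_all c
    (mr (mr (mr (mr (mr (mr (mr (mr (mr (mr (mr (List.mem_append_left _ hc))))))))))))) _ ev_C12

lemma P_C13 : P 5 C13 = ((1 : ℕ) : ZMod 2) :=
  ev_chunk (m := 9) (by norm_num) 10 C13 (fun c hc => real_all c
    (mr (mr (mr (mr (mr (mr (mr (mr (mr (mr (mr (mr (List.mem_append_left _ hc)))))))))))))) _ ev_C13

lemma P_C14 : P 5 C14 = ((0 : ℕ) : ZMod 2) :=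
  ev_chunk (m := 9) (by norm_num) 10 C14 (fun c hc => real_all c
    (mr (mr (mr (mr (mr (mr (mr (mr (mr (mr (mr (mr (mr (List.mem_append_left _
    hc))))))))))))))) _ ev_C14

lemma P_C15 : P 5 C15 = ((1 : ℕ) : ZMod 2) :=
  ev_chunk (m := 9) (by norm_num) 10 C15 (fun c hc => real_all c
    (mr (mr (mr (mr (mr (mr (mr (mr (mr (mr (mr (mr (mr (mr (List.mem_append_left _
    hc)))))))))))))))) _ ev_C15

lemma P_C16 : P 5 C16 = ((0 : ℕ) : ZMod 2) :=
  ev_chunk (m := 9) (by norm_num) 10 C16 (fun c hc => real_all c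
    (mr (mr (mr (mr (mr (mr (mr (mr (mr (mr (mr (mr (mr (mr (mr (List.mem_append_left _
    hc))))))))))))))))) _ ev_C16

lemma P_C17 : P 5 C17 = ((0 : ℕ) : ZMod 2) :=
  ev_chunk (m := 9) (by norm_num) 10 C17 (fun c hc => real_all c
    (mr (mr (mr (mr (mr (mr (mr (mr (mr (mr (mr (mr (mr (mr (mr (mr (List.mem_append_left _
    hc)))))))))))))))))) _ ev_C17

lemma P_C18 : P 5 C18 = ((0 : ℕ) : ZMod 2) :=
  ev_chunk (m := 9) (by norm_num) 10 C18 (fun c hc => real_all c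
    (mr (mr (mr (mr (mr (mr (mr (mr (mr (mr (mr (mr (mr (mr (mr (mr (mr
    (List.mem_append_left _ hc))))))))))))))))))) _ ev_C18

lemma P_C19 : P 5 C19 = ((1 : ℕ) : ZMod 2) :=
  ev_chunk (m := 9) (by norm_num) 10 C19 (fun c hc => real_all c
    (mr (mr (mr (mr (mr (mr (mr (mr (mr (mr (mr (mr (mr (mr (mr (mr (mr (mr
    (List.mem_append_left _ hc)))))))))))))))))))) _ ev_C19

lemma P_C20 : P 5 C20 = ((1 : ℕ) : ZMod 2) :=
  ev_chunk (m := 9) (by norm_num) 10 C20 (fun c hc => real_all c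
    (mr (mr (mr (mr (mr (mr (mr (mr (mr (mr (mr (mr (mr (mr (mr (mr (mr (mr (mr
    (List.mem_append_left _ hc))))))))))))))))))))) _ ev_C20

lemma P_C21 : P 5 C21 = ((0 : ℕ) : ZMod 2) :=
  ev_chunk (m := 9) (by norm_num) 10 C21 (fun c hc => real_all c
    (mr (mr (mr (mr (mr (mr (mr (mr (mr (mr (mr (mr (mr (mr (mr (mr (mr (mr (mr (mr
    (List.mem_append_left _ hc)))))))))))))))))))))) _ ev_C21

lemma P_C22 : P 5 C22 = ((1 : ℕ) : ZMod 2) :=
  ev_chunk (m := 9) (by norm_num) 10 C22 (fun c hc => real_all c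
    (mr (mr (mr (mr (mr (mr (mr (mr (mr (mr (mr (mr (mr (mr (mr (mr (mr (mr (mr (mr (mr
    (List.mem_append_left _ hc))))))))))))))))))))))) _ ev_C22

lemma P_C23 : P 5 C23 = ((1 : ℕ) : ZMod 2) :=
  ev_chunk (m := 9) (by norm_num) 10 C23 (fun c hc => real_all c
    (mr (mr (mr (mr (mr (mr (mr (mr (mr (mr (mr (mr (mr (mr (mr (mr (mr (mr (mr (mr (mr (mr
    (List.mem_append_left _ hc)))))))))))))))))))))))) _ ev_C23

lemma P_C24 : P 5 C24 = ((1 : ℕ) : ZMod 2) :=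
  ev_chunk (m := 9) (by norm_num) 10 C24 (fun c hc => real_all c
    (mr (mr (mr (mr (mr (mr (mr (mr (mr (mr (mr (mr (mr (mr (mr (mr (mr (mr (mr (mr (mr (mr
    (mr (List.mem_append_left _ hc))))))))))))))))))))))))) _ ev_C24

lemma P_C25 : P 5 C25 = ((0 : ℕ) : ZMod 2) :=
  ev_chunk (m := 9) (by norm_num) 10 C25 (fun c hc => real_all c
    (mr (mr (mr (mr (mr (mr (mr (mr (mr (mr (mr (mr (mr (mr (mr (mr (mr (mr (mr (mr (mr (mr
    (mr (mr (List.mem_append_left _ hc)))))))))))))))))))))))))) _ ev_C25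

lemma P_C26 : P 5 C26 = ((1 : ℕ) : ZMod 2) :=
  ev_chunk (m := 9) (by norm_num) 10 C26 (fun c hc => real_all c
    (mr (mr (mr (mr (mr (mr (mr (mr (mr (mr (mr (mr (mr (mr (mr (mr (mr (mr (mr (mr (mr (mr
    (mr (mr (mr (List.mem_append_left _ hc))))))))))))))))))))))))))) _ ev_C26

lemma P_C27 : P 5 C27 = ((1 : ℕ) : ZMod 2) :=
  ev_chunk (m := 9) (by norm_num) 10 C27 (fun c hc => real_all c
    (mr (mr (mr (mr (mr (mr (mr (mr (mr (mr (mr (mr (mr (mr (mr (mr (mr (mr (mr (mr (mr (mr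
    (mr (mr (mr (mr (List.mem_append_left _ hc)))))))))))))))))))))))))))) _ ev_C27

lemma P_C28 : P 5 C28 = ((1 : ℕ) : ZMod 2) :=
  ev_chunk (m := 9) (by norm_num) 10 C28 (fun c hc => real_all c
    (mr (mr (mr (mr (mr (mr (mr (mr (mr (mr (mr (mr (mr (mr (mr (mr (mr (mr (mr (mr (mr (mr
    (mr (mr (mr (mr (mr (List.mem_append_left _ hc))))))))))))))))))))))))))))) _ ev_C28

lemma P_C29 : P 5 C29 = ((1 : ℕ) : ZMod 2) :=
  ev_chunk (m := 9) (by norm_num) 10 C29 (fun c hc => real_all c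
    (mr (mr (mr (mr (mr (mr (mr (mr (mr (mr (mr (mr (mr (mr (mr (mr (mr (mr (mr (mr (mr (mr
    (mr (mr (mr (mr (mr (mr (List.mem_append_left _ hc)))))))))))))))))))))))))))))) _ ev_C29

lemma P_C30 : P 5 C30 = ((1 : ℕ) : ZMod 2) :=
  ev_chunk (m := 9) (by norm_num) 10 C30 (fun c hc => real_all c
    (mr (mr (mr (mr (mr (mr (mr (mr (mr (mr (mr (mr (mr (mr (mr (mr (mr (mr (mr (mr (mr (mr
    (mr (mr (mr (mr (mr (mr (mr (List.mem_append_left _ hc))))))))))))))))))))))))))))))) _ ev_C30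

lemma P_C31 : P 5 C31 = ((0 : ℕ) : ZMod 2) :=
  ev_chunk (m := 9) (by norm_num) 10 C31 (fun c hc => real_all c
    (mr (mr (mr (mr (mr (mr (mr (mr (mr (mr (mr (mr (mr (mr (mr (mr (mr (mr (mr (mr (mr (mr
    (mr (mr (mr (mr (mr (mr (mr (mr (List.mem_append_left _
    hc)))))))))))))))))))))))))))))))) _ ev_C31

lemma P_C32 : P 5 C32 = ((1 : ℕ) : ZMod 2) :=
  ev_chunk (m := 9) (by norm_num) 10 C32 (fun c hc => real_all c
    (mr (mr (mr (mr (mr (mr (mr (mr (mr (mr (mr (mr (mr (mr (mr (mr (mr (mr (mr (mr (mr (mr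
    (mr (mr (mr (mr (mr (mr (mr (mr (mr (List.mem_append_left _
    hc))))))))))))))))))))))))))))))))) _ ev_C32

lemma P_C33 : P 5 C33 = ((1 : ℕ) : ZMod 2) :=
  ev_chunk (m := 9) (by norm_num) 10 C33 (fun c hc => real_all c
    (mr (mr (mr (mr (mr (mr (mr (mr (mr (mr (mr (mr (mr (mr (mr (mr (mr (mr (mr (mr (mr (mr
    (mr (mr (mr (mr (mr (mr (mr (mr (mr (mr (List.mem_append_left _
    hc)))))))))))))))))))))))))))))))))) _ ev_C33

lemma P_C34 : P 5 C34 = ((0 : ℕ) : ZMod 2) :=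
  ev_chunk (m := 9) (by norm_num) 10 C34 (fun c hc => real_all c
    (mr (mr (mr (mr (mr (mr (mr (mr (mr (mr (mr (mr (mr (mr (mr (mr (mr (mr (mr (mr (mr (mr
    (mr (mr (mr (mr (mr (mr (mr (mr (mr (mr (mr (List.mem_append_left _
    hc))))))))))))))))))))))))))))))))))) _ ev_C34

lemma P_C35 : P 5 C35 = ((0 : ℕ) : ZMod 2) :=
  ev_chunk (m := 9) (by norm_num) 10 C35 (fun c hc => real_all c
    (mr (mr (mr (mr (mr (mr (mr (mr (mr (mr (mr (mr (mr (mr (mr (mr (mr (mr (mr (mr (mr (mr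
    (mr (mr (mr (mr (mr (mr (mr (mr (mr (mr (mr (mr (List.mem_append_left _
    hc)))))))))))))))))))))))))))))))))))) _ ev_C35

lemma P_C36 : P 5 C36 = ((1 : ℕ) : ZMod 2) :=
  ev_chunk (m := 9) (by norm_num) 10 C36 (fun c hc => real_all c
    (mr (mr (mr (mr (mr (mr (mr (mr (mr (mr (mr (mr (mr (mr (mr (mr (mr (mr (mr (mr (mr (mr
    (mr (mr (mr (mr (mr (mr (mr (mr (mr (mr (mr (mr (mr (List.mem_append_left _
    hc))))))))))))))))))))))))))))))))))))) _ ev_C36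

lemma P_C37 : P 5 C37 = ((0 : ℕ) : ZMod 2) :=
  ev_chunk (m := 9) (by norm_num) 10 C37 (fun c hc => real_all c
    (mr (mr (mr (mr (mr (mr (mr (mr (mr (mr (mr (mr (mr (mr (mr (mr (mr (mr (mr (mr (mr (mr
    (mr (mr (mr (mr (mr (mr (mr (mr (mr (mr (mr (mr (mr (mr (List.mem_append_left _
    hc)))))))))))))))))))))))))))))))))))))) _ ev_C37

lemma P_C38 : P 5 C38 = ((0 : ℕ) : ZMod 2) :=
  ev_chunk (m := 9) (by norm_num) 10 C38 (fun c hc => real_all c
    (mr (mr (mr (mr (mr (mr (mr (mr (mr (mr (mr (mr (mr (mr (mr (mr (mr (mr (mr (mr (mr (mr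
    (mr (mr (mr (mr (mr (mr (mr (mr (mr (mr (mr (mr (mr (mr (mr (List.mem_append_left _
    hc))))))))))))))))))))))))))))))))))))))) _ ev_C38

lemma P_C39 : P 5 C39 = ((0 : ℕ) : ZMod 2) :=
  ev_chunk (m := 9) (by norm_num) 10 C39 (fun c hc => real_all c
    (mr (mr (mr (mr (mr (mr (mr (mr (mr (mr (mr (mr (mr (mr (mr (mr (mr (mr (mr (mr (mr (mr
    (mr (mr (mr (mr (mr (mr (mr (mr (mr (mr (mr (mr (mr (mr (mr (mr (List.mem_append_left _
    hc)))))))))))))))))))))))))))))))))))))))) _ ev_C39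

lemma P_C40 : P 5 C40 = ((1 : ℕ) : ZMod 2) :=
  ev_chunk (m := 9) (by norm_num) 10 C40 (fun c hc => real_all c
    (mr (mr (mr (mr (mr (mr (mr (mr (mr (mr (mr (mr (mr (mr (mr (mr (mr (mr (mr (mr (mr (mr
    (mr (mr (mr (mr (mr (mr (mr (mr (mr (mr (mr (mr (mr (mr (mr (mr (mr
    (List.mem_append_left _ hc))))))))))))))))))))))))))))))))))))))))) _ ev_C40

lemma P_C41 : P 5 C41 = ((1 : ℕ) : ZMod 2) :=
  ev_chunk (m := 9) (by norm_num) 10 C41 (fun c hc => real_all c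
    (mr (mr (mr (mr (mr (mr (mr (mr (mr (mr (mr (mr (mr (mr (mr (mr (mr (mr (mr (mr (mr (mr
    (mr (mr (mr (mr (mr (mr (mr (mr (mr (mr (mr (mr (mr (mr (mr (mr (mr (mr
    (List.mem_append_left _ hc)))))))))))))))))))))))))))))))))))))))))) _ ev_C41

lemma P_C42 : P 5 C42 = ((0 : ℕ) : ZMod 2) :=
  ev_chunk (m := 9) (by norm_num) 10 C42 (fun c hc => real_all c
    (mr (mr (mr (mr (mr (mr (mr (mr (mr (mr (mr (mr (mr (mr (mr (mr (mr (mr (mr (mr (mr (mr
    (mr (mr (mr (mr (mr (mr (mr (mr (mr (mr (mr (mr (mr (mr (mr (mr (mr (mr (mr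
    (List.mem_append_left _ hc))))))))))))))))))))))))))))))))))))))))))) _ ev_C42

lemma P_C43 : P 5 C43 = ((1 : ℕ) : ZMod 2) :=
  ev_chunk (m := 9) (by norm_num) 10 C43 (fun c hc => real_all c
    (mr (mr (mr (mr (mr (mr (mr (mr (mr (mr (mr (mr (mr (mr (mr (mr (mr (mr (mr (mr (mr (mr
    (mr (mr (mr (mr (mr (mr (mr (mr (mr (mr (mr (mr (mr (mr (mr (mr (mr (mr (mr (mr
    (List.mem_append_left _ hc)))))))))))))))))))))))))))))))))))))))))))) _ ev_C43

lemma P_C44 : P 5 C44 = ((1 : ℕ) : ZMod 2) :=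
  ev_chunk (m := 9) (by norm_num) 10 C44 (fun c hc => real_all c
    (mr (mr (mr (mr (mr (mr (mr (mr (mr (mr (mr (mr (mr (mr (mr (mr (mr (mr (mr (mr (mr (mr
    (mr (mr (mr (mr (mr (mr (mr (mr (mr (mr (mr (mr (mr (mr (mr (mr (mr (mr (mr (mr (mr
    (List.mem_append_left _ hc))))))))))))))))))))))))))))))))))))))))))))) _ ev_C44

lemma P_C45 : P 5 C45 = ((1 : ℕ) : ZMod 2) :=
  ev_chunk (m := 9) (by norm_num) 10 C45 (fun c hc => real_all c
    (mr (mr (mr (mr (mr (mr (mr (mr (mr (mr (mr (mr (mr (mr (mr (mr (mr (mr (mr (mr (mr (mr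
    (mr (mr (mr (mr (mr (mr (mr (mr (mr (mr (mr (mr (mr (mr (mr (mr (mr (mr (mr (mr (mr (mr
    (List.mem_append_left _ hc)))))))))))))))))))))))))))))))))))))))))))))) _ ev_C45

lemma P_C46 : P 5 C46 = ((1 : ℕ) : ZMod 2) :=
  ev_chunk (m := 9) (by norm_num) 10 C46 (fun c hc => real_all c
    (mr (mr (mr (mr (mr (mr (mr (mr (mr (mr (mr (mr (mr (mr (mr (mr (mr (mr (mr (mr (mr (mr
    (mr (mr (mr (mr (mr (mr (mr (mr (mr (mr (mr (mr (mr (mr (mr (mr (mr (mr (mr (mr (mr (mr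
    (mr (List.mem_append_left _ hc))))))))))))))))))))))))))))))))))))))))))))))) _ ev_C46

lemma P_C47 : P 5 C47 = ((0 : ℕ) : ZMod 2) :=
  ev_chunk (m := 9) (by norm_num) 10 C47 (fun c hc => real_all c
    (mr (mr (mr (mr (mr (mr (mr (mr (mr (mr (mr (mr (mr (mr (mr (mr (mr (mr (mr (mr (mr (mr
    (mr (mr (mr (mr (mr (mr (mr (mr (mr (mr (mr (mr (mr (mr (mr (mr (mr (mr (mr (mr (mr (mr
    (mr (mr (List.mem_append_left _ hc)))))))))))))))))))))))))))))))))))))))))))))))) _ ev_C47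

lemma P_C48 : P 5 C48 = ((0 : ℕ) : ZMod 2) :=
  ev_chunk (m := 9) (by norm_num) 10 C48 (fun c hc => real_all c
    (mr (mr (mr (mr (mr (mr (mr (mr (mr (mr (mr (mr (mr (mr (mr (mr (mr (mr (mr (mr (mr (mr
    (mr (mr (mr (mr (mr (mr (mr (mr (mr (mr (mr (mr (mr (mr (mr (mr (mr (mr (mr (mr (mr (mr
    (mr (mr (mr (List.mem_append_left _ hc))))))))))))))))))))))))))))))))))))))))))))))))) _ ev_C48

lemma P_C49 : P 5 C49 = ((1 : ℕ) : ZMod 2) :=
  ev_chunk (m := 9) (by norm_num) 10 C49 (fun c hc => real_all c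
    (mr (mr (mr (mr (mr (mr (mr (mr (mr (mr (mr (mr (mr (mr (mr (mr (mr (mr (mr (mr (mr (mr
    (mr (mr (mr (mr (mr (mr (mr (mr (mr (mr (mr (mr (mr (mr (mr (mr (mr (mr (mr (mr (mr (mr
    (mr (mr (mr (mr (List.mem_append_left _
    hc)))))))))))))))))))))))))))))))))))))))))))))))))) _ ev_C49

lemma P_C50 : P 5 C50 = ((0 : ℕ) : ZMod 2) :=
  ev_chunk (m := 9) (by norm_num) 10 C50 (fun c hc => real_all c
    (mr (mr (mr (mr (mr (mr (mr (mr (mr (mr (mr (mr (mr (mr (mr (mr (mr (mr (mr (mr (mr (mr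
    (mr (mr (mr (mr (mr (mr (mr (mr (mr (mr (mr (mr (mr (mr (mr (mr (mr (mr (mr (mr (mr (mr
    (mr (mr (mr (mr (mr (List.mem_append_left _
    hc))))))))))))))))))))))))))))))))))))))))))))))))))) _ ev_C50

lemma P_C51 : P 5 C51 = ((0 : ℕ) : ZMod 2) :=
  ev_chunk (m := 9) (by norm_num) 10 C51 (fun c hc => real_all c
    (mr (mr (mr (mr (mr (mr (mr (mr (mr (mr (mr (mr (mr (mr (mr (mr (mr (mr (mr (mr (mr (mr
    (mr (mr (mr (mr (mr (mr (mr (mr (mr (mr (mr (mr (mr (mr (mr (mr (mr (mr (mr (mr (mr (mr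
    (mr (mr (mr (mr (mr (mr (List.mem_append_left _
    hc)))))))))))))))))))))))))))))))))))))))))))))))))))) _ ev_C51

lemma P_C52 : P 5 C52 = ((1 : ℕ) : ZMod 2) :=
  ev_chunk (m := 9) (by norm_num) 10 C52 (fun c hc => real_all c
    (mr (mr (mr (mr (mr (mr (mr (mr (mr (mr (mr (mr (mr (mr (mr (mr (mr (mr (mr (mr (mr (mr
    (mr (mr (mr (mr (mr (mr (mr (mr (mr (mr (mr (mr (mr (mr (mr (mr (mr (mr (mr (mr (mr (mr
    (mr (mr (mr (mr (mr (mr (mr (List.mem_append_left _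
    hc))))))))))))))))))))))))))))))))))))))))))))))))))))) _ ev_C52

lemma P_C53 : P 5 C53 = ((1 : ℕ) : ZMod 2) :=
  ev_chunk (m := 9) (by norm_num) 10 C53 (fun c hc => real_all c
    (mr (mr (mr (mr (mr (mr (mr (mr (mr (mr (mr (mr (mr (mr (mr (mr (mr (mr (mr (mr (mr (mr
    (mr (mr (mr (mr (mr (mr (mr (mr (mr (mr (mr (mr (mr (mr (mr (mr (mr (mr (mr (mr (mr (mr
    (mr (mr (mr (mr (mr (mr (mr (mr (List.mem_append_left _
    hc)))))))))))))))))))))))))))))))))))))))))))))))))))))) _ ev_C53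

lemma P_C54 : P 5 C54 = ((0 : ℕ) : ZMod 2) :=
  ev_chunk (m := 9) (by norm_num) 10 C54 (fun c hc => real_all c
    (mr (mr (mr (mr (mr (mr (mr (mr (mr (mr (mr (mr (mr (mr (mr (mr (mr (mr (mr (mr (mr (mr
    (mr (mr (mr (mr (mr (mr (mr (mr (mr (mr (mr (mr (mr (mr (mr (mr (mr (mr (mr (mr (mr (mr
    (mr (mr (mr (mr (mr (mr (mr (mr (mr (List.mem_append_left _
    hc))))))))))))))))))))))))))))))))))))))))))))))))))))))) _ ev_C54

lemma P_C55 : P 5 C55 = ((1 : ℕ) : ZMod 2) :=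
  ev_chunk (m := 9) (by norm_num) 10 C55 (fun c hc => real_all c
    (mr (mr (mr (mr (mr (mr (mr (mr (mr (mr (mr (mr (mr (mr (mr (mr (mr (mr (mr (mr (mr (mr
    (mr (mr (mr (mr (mr (mr (mr (mr (mr (mr (mr (mr (mr (mr (mr (mr (mr (mr (mr (mr (mr (mr
    (mr (mr (mr (mr (mr (mr (mr (mr (mr (mr (List.mem_append_left _
    hc)))))))))))))))))))))))))))))))))))))))))))))))))))))))) _ ev_C55

lemma P_C56 : P 5 C56 = ((0 : ℕ) : ZMod 2) :=
  ev_chunk (m := 9) (by norm_num) 10 C56 (fun c hc => real_all c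
    (mr (mr (mr (mr (mr (mr (mr (mr (mr (mr (mr (mr (mr (mr (mr (mr (mr (mr (mr (mr (mr (mr
    (mr (mr (mr (mr (mr (mr (mr (mr (mr (mr (mr (mr (mr (mr (mr (mr (mr (mr (mr (mr (mr (mr
    (mr (mr (mr (mr (mr (mr (mr (mr (mr (mr (mr
    hc)))))))))))))))))))))))))))))))))))))))))))))))))))))))) _ ev_C56

lemma G_L0 : (G 14 st0 : ZMod 2) = P 14 L0 := by
  have h : P 14 L0 = Gc 14 (code st0) := by
    rw [code_st0, L0, P_cons, P_nil, add_zero]
  rw [h]
  exact (Gc_code 14 st0 valid0 (by simp [st0])).symm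

lemma P_allL : P 5 allL =
    P 5 C1 + ( P 5 C2 + ( P 5 C3 + ( P 5 C4 + ( P 5 C5 + ( P 5 C6 + ( P 5 C7 + ( P 5 C8 + (
    P 5 C9 + ( P 5 C10 + ( P 5 C11 + ( P 5 C12 + ( P 5 C13 + ( P 5 C14 + ( P 5 C15 + (
    P 5 C16 + ( P 5 C17 + ( P 5 C18 + ( P 5 C19 + ( P 5 C20 + ( P 5 C21 + ( P 5 C22 + (
    P 5 C23 + ( P 5 C24 + ( P 5 C25 + ( P 5 C26 + ( P 5 C27 + ( P 5 C28 + ( P 5 C29 + (
    P 5 C30 + ( P 5 C31 + ( P 5 C32 + ( P 5 C33 + ( P 5 C34 + ( P 5 C35 + ( P 5 C36 + (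
    P 5 C37 + ( P 5 C38 + ( P 5 C39 + ( P 5 C40 + ( P 5 C41 + ( P 5 C42 + ( P 5 C43 + (
    P 5 C44 + ( P 5 C45 + ( P 5 C46 + ( P 5 C47 + ( P 5 C48 + ( P 5 C49 + ( P 5 C50 + (
    P 5 C51 + ( P 5 C52 + ( P 5 C53 + ( P 5 C54 + ( P 5 C55 +
    P 5 C56)))))))))))))))))))))))))))))))))))))))))))))))))))))) := by
  unfold allL
  simp only [P_append]

set_option maxRecDepth 10000 in
lemma P_allL_val : P 5 allL = 1 := by
  rw [P_allL,
    P_C1, P_C2, P_C3, P_C4, P_C5, P_C6, P_C7, P_C8, P_C9, P_C10, P_C11, P_C12, P_C13,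
    P_C14, P_C15, P_C16, P_C17, P_C18, P_C19, P_C20, P_C21, P_C22, P_C23, P_C24, P_C25,
    P_C26, P_C27, P_C28, P_C29, P_C30, P_C31, P_C32, P_C33, P_C34, P_C35, P_C36, P_C37,
    P_C38, P_C39, P_C40, P_C41, P_C42, P_C43, P_C44, P_C45, P_C46, P_C47, P_C48, P_C49,
    P_C50, P_C51, P_C52, P_C53, P_C54, P_C55, P_C56]
  decide

theorem G_fourteen_cast : (G 14 st0 : ZMod 2) = 1 :=
  G_L0.trans (P_L9.trans ((P_perm 5 L9_perm).trans P_allL_val))

open Classical in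
/-- the number of permutations of fourteen letters without an occurrence of `42531` is odd -/
theorem odd_card_av : Odd (univ.filter fun π : Equiv.Perm (Fin 14) => ¬ Occ π).card := by
  rw [card_av, ← Nat.not_even_iff_odd, even_iff_two_dvd, ← ZMod.natCast_eq_zero_iff,
    G_fourteen_cast]
  decide

end EvenWilf
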